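import Mathlib

/-!
MP_b12e0e_ag (helper43): spanning a block `2 x b x c` by tangent spaces at rank-one points with
structured neighbours (for formats with three large dimensions).
-/

set_option autoImplicit false

open Set Function

namespace Pool.Agent.H43.TR

/-- three vectors -/
def tn {X Y : Type} (v : Fin 2 → ℝ) (f : X → ℝ) (g : Y → ℝ) : Fin 2 × X × Y → ℝ :=
  fun z => v z.1 * f z.2.1 * g z.2.2

section
variable {X Y : Type} (W : Submodule ℝ (Fin 2 × X × Y → ℝ))

theorem tn_unit {f : X → ℝ} {g : Y → ℝ} (h : ∀ e : Fin 2, tn (Pi.single e 1) f g ∈ W)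
    (v : Fin 2 → ℝ) : tn v f g ∈ W := by
  have h1 : tn v f g = v 0 • tn (Pi.single 0 1) f g + v 1 • tn (Pi.single 1 1) f g := by
    funext ⟨a, x, y⟩
    simp only [tn, Pi.add_apply, Pi.smul_apply, smul_eq_mul]
    fin_cases a <;> simp <;> ring
  rw [h1]
  exact W.add_mem (W.smul_mem _ (h 0)) (W.smul_mem _ (h 1))

theorem tn_two {f : X → ℝ} {g : Y → ℝ} {s t : ℝ} (hst : s ≠ t) (hs : tn ![1, s] f g ∈ W)
    (ht : tn ![1, t] f g ∈ W) (v : Fin 2 → ℝ) : tn v f g ∈ W := by
  have hd : t - s ≠ 0 := sub_ne_zero.2 hst.symm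
  have h1 : tn v f g = ((v 0 * t - v 1) / (t - s)) • tn ![1, s] f g +
      ((v 1 - v 0 * s) / (t - s)) • tn ![1, t] f g := by
    funext ⟨a, x, y⟩
    simp only [tn, Pi.add_apply, Pi.smul_apply, smul_eq_mul]
    fin_cases a
    · simp
      field_simp
      ring
    · simp
      field_simp
      ring
  rw [h1]
  exact W.add_mem (W.smul_mem _ hs) (W.smul_mem _ ht)

theorem tn_add_left {v : Fin 2 → ℝ} {f f' : X → ℝ} {g : Y → ℝ} (h : tn v (f + f') g ∈ W)
    (h' : tn v f g ∈ W) : tn v f' g ∈ W := by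
  have h1 : tn v f' g = tn v (f + f') g - tn v f g := by
    funext z
    simp only [tn, Pi.add_apply, Pi.sub_apply]
    ring
  rw [h1]
  exact W.sub_mem h h'

theorem tn_add_right {v : Fin 2 → ℝ} {f : X → ℝ} {g g' : Y → ℝ} (h : tn v f (g + g') ∈ W)
    (h' : tn v f g ∈ W) : tn v f g' ∈ W := by
  have h1 : tn v f g' = tn v f (g + g') - tn v f g := by
    funext z
    simp only [tn, Pi.add_apply, Pi.sub_apply]
    ring
  rw [h1]
  exact W.sub_mem h h'

theorem tn_top [Fintype X] [Fintype Y] [DecidableEq X] [DecidableEq Y]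
    (h : ∀ (v : Fin 2 → ℝ) (x : X) (y : Y), tn v (Pi.single x 1) (Pi.single y 1) ∈ W) :
    ⊤ ≤ W := by
  intro F _
  have h1 : F = ∑ z : X × Y, tn (fun a => F (a, z.1, z.2)) (Pi.single z.1 1) (Pi.single z.2 1) := by
    funext ⟨a, x, y⟩
    rw [Finset.sum_apply, Finset.sum_eq_single (x, y)]
    · simp [tn]
    · intro z _ hz
      simp only [tn]
      by_cases h1 : z.1 = x
      · have h2 : z.2 ≠ y := fun h2 => hz (Prod.ext h1 h2)
        rw [Pi.single_eq_of_ne (Ne.symm h2), mul_zero]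
      · rw [Pi.single_eq_of_ne (Ne.symm h1), mul_zero, zero_mul]
    · simp
  rw [h1]
  exact W.sum_mem fun z _ => h _ _ _

end

section
variable {w p q u : ℕ}

/-- the tasks -/
abbrev Task (w p q : ℕ) : Type :=
  ((Fin p × Fin q) ⊕ (Fin w × Fin q)) ⊕ ((Fin p × Fin w) ⊕ (Fin w × Fin 2))

/-- the vectors of a task in the second factor -/
def tb (j : Fin u) : Task w p q → ((Fin w × Fin 2) × Fin u) ⊕ (Fin p × Fin u) → ℝ
  | Sum.inl (Sum.inl x) => Pi.single (Sum.inr (x.1, j)) 1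
  | Sum.inl (Sum.inr x) => Pi.single (Sum.inl ((x.1, 0), j)) 1 + Pi.single (Sum.inl ((x.1, 1), j)) 1
  | Sum.inr (Sum.inl x) => Pi.single (Sum.inr (x.1, j)) 1
  | Sum.inr (Sum.inr y) => Pi.single (Sum.inl (y, j)) 1

/-- the vectors of a task in the third factor -/
def tc (i : Fin u) : Task w p q → ((Fin w × Fin 2) × Fin u) ⊕ (Fin q × Fin u) → ℝ
  | Sum.inl (Sum.inl x) => Pi.single (Sum.inr (x.2, i)) 1
  | Sum.inl (Sum.inr x) => Pi.single (Sum.inr (x.2, i)) 1
  | Sum.inr (Sum.inl x) => Pi.single (Sum.inl ((x.2, 0), i)) 1 + Pi.single (Sum.inl ((x.2, 1), i)) 1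
  | Sum.inr (Sum.inr y) => Pi.single (Sum.inl (y, i)) 1

/-- pairwise different numbers -/
def idx (y : Fin w × Fin 2) : ℝ := ((2 * (y.1 : ℕ) + (y.2 : ℕ) : ℕ) : ℝ)

theorem idx_inj {y y' : Fin w × Fin 2} (h : y ≠ y') : idx y ≠ idx y' := by
  intro h1
  apply h
  have h2 : 2 * (y.1 : ℕ) + (y.2 : ℕ) = 2 * (y'.1 : ℕ) + (y'.2 : ℕ) := by
    unfold idx at h1
    exact_mod_cast h1
  have h3 := y.2.isLt
  have h4 := y'.2.isLt
  exact Prod.ext (Fin.ext (by omega)) (Fin.ext (by omega))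

/-- own tangent vectors and all tasks span everything -/
theorem tasks_span
    (W : Submodule ℝ (Fin 2 × (((Fin w × Fin 2) × Fin u) ⊕ (Fin p × Fin u)) ×
      (((Fin w × Fin 2) × Fin u) ⊕ (Fin q × Fin u)) → ℝ))
    (h1 : ∀ y j l, tn ![1, idx y] (Pi.single l 1) (Pi.single (Sum.inl (y, j)) 1) ∈ W)
    (h2 : ∀ y j l, tn ![1, idx y] (Pi.single (Sum.inl (y, j)) 1) (Pi.single l 1) ∈ W)
    (h3 : ∀ (t : Task w p q) (i j : Fin u) (e : Fin 2), tn (Pi.single e 1) (tb j t) (tc i t) ∈ W) :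
    ⊤ ≤ W := by
  have h3' : ∀ (v : Fin 2 → ℝ) (t : Task w p q) (i j : Fin u), tn v (tb j t) (tc i t) ∈ W :=
    fun v t i j => tn_unit W (h3 t i j) v
  have h01 : ∀ s : Fin w, idx (s, (0 : Fin 2)) ≠ idx (s, 1) := fun s => idx_inj (by simp)
  refine tn_top W fun v l l' => ?_
  rcases l with ⟨y, j⟩ | ⟨p0, j⟩
  · rcases l' with ⟨y', i⟩ | ⟨q0, i⟩
    · by_cases hy : y = y'
      · subst hy
        exact h3' v (Sum.inr (Sum.inr y)) i j
      · exact tn_two W (idx_inj hy) (h2 y j _) (h1 y' i _) v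
    · obtain ⟨s, a⟩ := y
      have key : ∀ v, tn v (Pi.single (Sum.inl ((s, 0), j)) 1 + Pi.single (Sum.inl ((s, 1), j)) 1)
          (Pi.single (Sum.inr (q0, i)) 1) ∈ W := fun v => h3' v (Sum.inl (Sum.inr (s, q0))) i j
      fin_cases a
      · refine tn_two W (h01 s) (h2 (s, 0) j _) ?_ v
        refine tn_add_left W (f := Pi.single (Sum.inl ((s, 1), j)) 1) ?_ (h2 (s, 1) j _)
        rw [add_comm]
        exact key _
      · refine tn_two W (h01 s).symm (h2 (s, 1) j _) ?_ v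
        exact tn_add_left W (key _) (h2 (s, 0) j _)
  · rcases l' with ⟨y', i⟩ | ⟨q0, i⟩
    · obtain ⟨s, a⟩ := y'
      have key : ∀ v, tn v (Pi.single (Sum.inr (p0, j)) 1)
          (Pi.single (Sum.inl ((s, 0), i)) 1 + Pi.single (Sum.inl ((s, 1), i)) 1) ∈ W :=
        fun v => h3' v (Sum.inr (Sum.inl (p0, s))) i j
      fin_cases a
      · refine tn_two W (h01 s) (h1 (s, 0) i _) ?_ v
        refine tn_add_right W (g := Pi.single (Sum.inl ((s, 1), i)) 1) ?_ (h1 (s, 1) i _)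
        rw [add_comm]
        exact key _
      · refine tn_two W (h01 s).symm (h1 (s, 1) i _) ?_ v
        exact tn_add_right W (key _) (h1 (s, 0) i _)
    · exact h3' v (Sum.inl (Sum.inl (p0, q0))) i j

/-- the index set of the second (third) factor -/
abbrev Ix (w p u : ℕ) : Type := ((Fin w × Fin 2) × Fin u) ⊕ (Fin p × Fin u)

/-- own tangent vectors, the gadgets and the neighbours span a block -/
theorem block_span {G S : Type} [Fintype G] [Fintype S]
    (hcount : u * (p * q + w * (p + q) + 2 * w) ≤ u * Fintype.card G + w * Fintype.card S) :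
    ∃ (A : Fin w × Fin 2 → Fin 2 → ℝ)
      (bg : G → Fin u → Ix w p u → ℝ)
      (cg : G → Fin u → Ix w q u → ℝ)
      (An : S → Fin w × Fin 2 → Fin 2 → ℝ)
      (bn : S → Fin w × Fin 2 → Fin u → Ix w p u → ℝ)
      (cn : S → Fin w × Fin 2 → Ix w q u → ℝ),
      ⊤ ≤ Submodule.span ℝ
        ({F : Fin 2 × Ix w p u × Ix w q u → ℝ |
            ∃ (y : Fin w × Fin 2) (j : Fin u) (l : Ix w p u), F = fun z => A y z.1 *
              (Pi.single l 1 : Ix w p u → ℝ) z.2.1 *
              (Pi.single (Sum.inl (y, j)) 1 : Ix w q u → ℝ) z.2.2} ∪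
         {F | ∃ (y : Fin w × Fin 2) (j : Fin u) (l : Ix w q u), F = fun z => A y z.1 *
              (Pi.single (Sum.inl (y, j)) 1 : Ix w p u → ℝ) z.2.1 *
              (Pi.single l 1 : Ix w q u → ℝ) z.2.2} ∪
         {F | ∃ (g : G) (i j : Fin u) (e : Fin 2), F = fun z =>
              (Pi.single e 1 : Fin 2 → ℝ) z.1 * bg g j z.2.1 * cg g i z.2.2} ∪
         {F | ∃ (s : S) (y : Fin w × Fin 2) (j : Fin u), F = fun z =>
              An s y z.1 * bn s y j z.2.1 * cn s y z.2.2}) := by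
  classical
  set X := Fintype.card (Task w p q) with hX
  have hXc : X = p * q + w * (p + q) + 2 * w := by
    rw [hX]
    simp only [Fintype.card_sum, Fintype.card_prod, Fintype.card_fin]
    ring
  rw [← hXc] at hcount
  set m := X - Fintype.card G with hm
  have hXm : X ≤ Fintype.card G + m := by omega
  have hum : u * m ≤ w * Fintype.card S := by
    rcases le_total X (Fintype.card G) with h | h
    · have : m = 0 := by omega
      rw [this, mul_zero]
      exact Nat.zero_le _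
    · have h1 : X = Fintype.card G + m := by omega
      rw [h1, mul_add] at hcount
      omega
  obtain ⟨φ⟩ : Nonempty (Task w p q ↪ G ⊕ Fin m) :=
    Embedding.nonempty_of_card_le (by
      have h1 : Fintype.card (G ⊕ Fin m) = Fintype.card G + m := by
        rw [Fintype.card_sum, Fintype.card_fin]
      rw [h1]
      exact hXm)
  obtain ⟨ψ⟩ : Nonempty (Fin m × Fin u × Fin 2 ↪ S × (Fin w × Fin 2)) :=
    Embedding.nonempty_of_card_le (by
      simp only [Fintype.card_prod, Fintype.card_fin]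
      nlinarith)
  let TB : G ⊕ Fin m → Fin u → Ix w p u → ℝ :=
    Function.extend φ (fun t j => tb j t) 0
  let TC : G ⊕ Fin m → Fin u → Ix w q u → ℝ :=
    Function.extend φ (fun t i => tc i t) 0
  have hTB : ∀ t j, TB (φ t) j = tb j t := fun t j =>
    congrFun (φ.injective.extend_apply (fun t j => tb j t) 0 t) j
  have hTC : ∀ t i, TC (φ t) i = tc i t := fun t i =>
    congrFun (φ.injective.extend_apply (fun t i => tc i t) 0 t) i
  let RA : S × (Fin w × Fin 2) → Fin 2 → ℝ := Function.extend ψ (fun x => Pi.single x.2.2 1) 0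
  let RB : S × (Fin w × Fin 2) → Fin u → Ix w p u → ℝ :=
    Function.extend ψ (fun x => TB (Sum.inr x.1)) 0
  let RC : S × (Fin w × Fin 2) → Ix w q u → ℝ :=
    Function.extend ψ (fun x => TC (Sum.inr x.1) x.2.1) 0
  have hRA : ∀ x, RA (ψ x) = Pi.single x.2.2 1 := fun x => ψ.injective.extend_apply _ 0 x
  have hRB : ∀ x, RB (ψ x) = TB (Sum.inr x.1) := fun x => ψ.injective.extend_apply _ 0 x
  have hRC : ∀ x, RC (ψ x) = TC (Sum.inr x.1) x.2.1 := fun x => ψ.injective.extend_apply _ 0 x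
  refine ⟨fun y => ![1, idx y], fun g => TB (Sum.inl g), fun g => TC (Sum.inl g),
    fun s y => RA (s, y), fun s y => RB (s, y), fun s y => RC (s, y), ?_⟩
  refine tasks_span _ (fun y j l => ?_) (fun y j l => ?_) fun t i j e => ?_
  · exact Submodule.subset_span (Or.inl (Or.inl (Or.inl ⟨y, j, l, rfl⟩)))
  · exact Submodule.subset_span (Or.inl (Or.inl (Or.inr ⟨y, j, l, rfl⟩)))
  · rcases hφ : φ t with g | k
    · refine Submodule.subset_span (Or.inl (Or.inr ⟨g, i, j, e, ?_⟩))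
      rw [← hTB, ← hTC, hφ]
      rfl
    · refine Submodule.subset_span (Or.inr ⟨(ψ (k, i, e)).1, (ψ (k, i, e)).2, j, ?_⟩)
      have e1 : RA ((ψ (k, i, e)).1, (ψ (k, i, e)).2) = Pi.single e 1 := hRA (k, i, e)
      have e2 : RB ((ψ (k, i, e)).1, (ψ (k, i, e)).2) = TB (Sum.inr k) := hRB (k, i, e)
      have e3 : RC ((ψ (k, i, e)).1, (ψ (k, i, e)).2) = TC (Sum.inr k) i := hRC (k, i, e)
      show _ = fun z : Fin 2 × Ix w p u × Ix w q u =>
        RA ((ψ (k, i, e)).1, (ψ (k, i, e)).2) z.1 *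
        RB ((ψ (k, i, e)).1, (ψ (k, i, e)).2) j z.2.1 *
        RC ((ψ (k, i, e)).1, (ψ (k, i, e)).2) z.2.2
      rw [e1, e2, e3, ← hTB, ← hTC, hφ]
      rfl

end

end Pool.Agent.H43.TR
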