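import Mathlib

/-! An elementary estimate (MP_b12e0e_ag, asymptotic rank). -/

set_option autoImplicit false

namespace Pool.Agent.H43.TR

theorem est_nat (e n m t : ℕ) (he : 1 ≤ e) (hm : 1 ≤ m)
    (hmn : m = n / (2 ^ e * (2 ^ e - 1))) (hn : n = m + t) :
    2 ^ e * (2 ^ e - 1) * t * 2 ^ m ≤ (n + 1) * 2 ^ t := by
  rcases Nat.lt_or_ge e 2 with h | h
  · have he1 : e = 1 := by omega
    subst he1
    have h2 : m = n / 2 := by simpa using hmn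
    have h3 : m ≤ t := by omega
    have h4 : 2 * t ≤ n + 1 := by omega
    calc 2 ^ 1 * (2 ^ 1 - 1) * t * 2 ^ m = 2 * t * 2 ^ m := by norm_num
      _ ≤ (n + 1) * 2 ^ t := Nat.mul_le_mul h4 (Nat.pow_le_pow_right (by norm_num) h3)
  · have hP : 4 ≤ 2 ^ e * (2 ^ e - 1) := by
      have h4 : 4 ≤ 2 ^ e := by
        calc 4 = 2 ^ 2 := by norm_num
          _ ≤ 2 ^ e := Nat.pow_le_pow_right (by norm_num) h
      have h5 : 1 ≤ 2 ^ e - 1 := by omega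
      calc 4 = 4 * 1 := by norm_num
        _ ≤ _ := Nat.mul_le_mul h4 h5
    generalize 2 ^ e * (2 ^ e - 1) = P at *
    obtain ⟨q, rfl⟩ : ∃ q, P = q + 4 := ⟨P - 4, by omega⟩
    have h6 : q + 4 ≤ 2 ^ (q + 2) := by
      have h7 : q < 2 ^ q := Nat.lt_two_pow_self
      rw [pow_add]
      omega
    have h8 : (q + 4) * m ≤ n := by
      rw [hmn]
      exact Nat.mul_div_le n (q + 4)
    have h9 : m + (q + 2) ≤ t := by nlinarith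
    obtain ⟨u, hu⟩ : ∃ u, t = m + (q + 2) + u := ⟨t - (m + (q + 2)), by omega⟩
    have h10 : (q + 4) * 2 ^ m ≤ 2 ^ t := by
      calc (q + 4) * 2 ^ m ≤ 2 ^ (q + 2) * 2 ^ m := Nat.mul_le_mul_right _ h6
        _ = 2 ^ (m + (q + 2)) := by rw [← pow_add, add_comm]
        _ ≤ 2 ^ t := Nat.pow_le_pow_right (by norm_num) h9
    calc (q + 4) * t * 2 ^ m = t * ((q + 4) * 2 ^ m) := by ring
      _ ≤ (n + 1) * 2 ^ t := Nat.mul_le_mul (by omega) h10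

theorem est (e n m t N₁ N₂ s A r : ℕ) (he : 1 ≤ e) (hm : 1 ≤ m)
    (hmn : m = n / (2 ^ e * (2 ^ e - 1))) (hn : n = m + t) (hN₁ : 2 ^ m ≤ N₁) (hN₂ : 2 ^ t ≤ N₂)
    (hr : r * (1 + s) ≤ N₁ + s) (hA : A ≤ 2 ^ e * (2 ^ e - 1) * t) :
    ((r * N₂ + N₁ * A : ℕ) : ℝ) ≤ (N₁ * N₂ : ℝ) / (1 + s) + (n + 2) * (N₁ * N₂) / 2 ^ m := by
  have hk : A * 2 ^ m ≤ (n + 1) * N₂ :=
    calc A * 2 ^ m ≤ 2 ^ e * (2 ^ e - 1) * t * 2 ^ m := Nat.mul_le_mul_right _ hA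
      _ ≤ (n + 1) * 2 ^ t := est_nat e n m t he hm hmn hn
      _ ≤ (n + 1) * N₂ := Nat.mul_le_mul_left _ hN₂
  have hkR : (A : ℝ) * 2 ^ m ≤ (n + 1) * N₂ := by exact_mod_cast hk
  have hN₁R : (2 : ℝ) ^ m ≤ N₁ := by exact_mod_cast hN₁
  have hrR : (r : ℝ) * (1 + s) ≤ N₁ + s := by exact_mod_cast hr
  have hs : (0 : ℝ) < 1 + s := by positivity
  have h2 : (0 : ℝ) < 2 ^ m := by positivity
  have hN₂0 : (0 : ℝ) ≤ N₂ := Nat.cast_nonneg _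
  have hN₁0 : (0 : ℝ) ≤ N₁ := Nat.cast_nonneg _
  have h3 : (r : ℝ) ≤ N₁ / (1 + s) + 1 := by
    rw [div_add_one hs.ne', le_div_iff₀ hs]
    linarith
  have h4 : (r : ℝ) * N₂ ≤ (N₁ * N₂ : ℝ) / (1 + s) + N₂ := by
    calc (r : ℝ) * N₂ ≤ (N₁ / (1 + s) + 1) * N₂ := mul_le_mul_of_nonneg_right h3 hN₂0
      _ = _ := by ring
  have h5 : (N₂ : ℝ) ≤ (N₁ * N₂ : ℝ) / 2 ^ m := by
    rw [le_div_iff₀ h2]
    nlinarith
  have h6 : (N₁ : ℝ) * A ≤ (n + 1) * (N₁ * N₂) / 2 ^ m := by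
    rw [le_div_iff₀ h2]
    nlinarith
  have h7 : ((n : ℝ) + 2) * (N₁ * N₂) / 2 ^ m =
      (N₁ * N₂ : ℝ) / 2 ^ m + (n + 1) * (N₁ * N₂) / 2 ^ m := by ring
  push_cast
  rw [h7]
  linarith

end Pool.Agent.H43.TR
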