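import Pool.Agent.H43.TR.EstBal

/-!
MP_b12e0e_ag (helper43): arithmetic for balanced formats with five factors.
-/

set_option autoImplicit false

namespace Pool.Agent.H43.TR

/-- powers of two near `√a` and near `D` -/
theorem pow_choice (a D : ℕ) (ha : 1 ≤ a) (haD : a ≤ D) :
    ∃ v e : ℕ, v ≤ e ∧ D ≤ 2 ^ e ∧ 2 ^ e ≤ 2 * D ∧ ((2 ^ v : ℕ) : ℝ) ≤ Real.sqrt a ∧
      Real.sqrt a ≤ 2 * ((2 ^ v : ℕ) : ℝ) := by
  have hs : Nat.sqrt a ≠ 0 := by
    rw [Ne, Nat.sqrt_eq_zero]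
    omega
  refine ⟨Nat.log 2 (Nat.sqrt a), Nat.clog 2 D, ?_, Nat.le_pow_clog (by norm_num) D, ?_, ?_, ?_⟩
  · have h1 : 2 ^ Nat.log 2 (Nat.sqrt a) ≤ Nat.sqrt a := Nat.pow_log_le_self 2 hs
    have h2 : Nat.sqrt a ≤ a := Nat.sqrt_le_self a
    have h3 : D ≤ 2 ^ Nat.clog 2 D := Nat.le_pow_clog (by norm_num) D
    have h4 : 2 ^ Nat.log 2 (Nat.sqrt a) ≤ 2 ^ Nat.clog 2 D := by omega
    exact (Nat.pow_le_pow_iff_right (by norm_num)).1 h4
  · rcases Nat.lt_or_ge 1 D with hD | hD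
    · have h1 : 2 ^ (Nat.clog 2 D).pred < D := Nat.pow_pred_clog_lt_self (by norm_num) hD
      have h2 : 0 < Nat.clog 2 D := Nat.clog_pos (by norm_num) hD
      have h3 : 2 ^ Nat.clog 2 D = 2 * 2 ^ (Nat.clog 2 D).pred := by
        obtain ⟨m, hm⟩ : ∃ m, Nat.clog 2 D = m + 1 := ⟨Nat.clog 2 D - 1, by omega⟩
        rw [hm, Nat.pred_succ, pow_succ]
        ring
      omega
    · have h1 : D = 1 := by omega
      subst h1
      simp
  · have h1 : 2 ^ Nat.log 2 (Nat.sqrt a) ≤ Nat.sqrt a := Nat.pow_log_le_self 2 hs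
    calc ((2 ^ Nat.log 2 (Nat.sqrt a) : ℕ) : ℝ) ≤ ((Nat.sqrt a : ℕ) : ℝ) := by exact_mod_cast h1
      _ ≤ Real.sqrt a := Real.nat_sqrt_le_real_sqrt
  · have h1 : Nat.sqrt a < 2 ^ (Nat.log 2 (Nat.sqrt a) + 1) := Nat.lt_pow_succ_log_self (by norm_num) _
    have h2 : ((Nat.sqrt a + 1 : ℕ) : ℝ) ≤ ((2 ^ (Nat.log 2 (Nat.sqrt a) + 1) : ℕ) : ℝ) := by
      exact_mod_cast h1
    have h3 : Real.sqrt a < (Nat.sqrt a : ℝ) + 1 := Real.real_sqrt_lt_nat_sqrt_succ
    rw [pow_succ] at h2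
    push_cast at h2 ⊢
    linarith

/-- the room for the cells, five factors; `k S ≤ 2.005 b c`, `S = a + b + 3 c` -/
theorem cell5_real (a b c h k : ℝ) (ha : 10000 ≤ a) (hab : a ≤ b) (hbc : b ≤ c) (h1 : 2 * h ≤ a)
    (h0 : 0 ≤ h) (hk0 : 0 ≤ k) (hk : k * (a + b + 3 * c) ≤ 2005 / 1000 * (b * c)) :
    k ≤ b ∧ h * k ≤ (b - k) * (c - k) := by
  have hb0 : 0 < b := by linarith
  have hc0 : 0 < c := by linarith
  set S := a + b + 3 * c with hS
  have hS0 : 0 < S := by linarith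
  have hkb : k ≤ b := by
    have e1 : k * (3 * c) ≤ k * S := mul_le_mul_of_nonneg_left (by linarith) hk0
    have e2 : k * (3 * c) ≤ 2005 / 1000 * (b * c) := le_trans e1 hk
    have e3 : (3 * k) * c ≤ (2005 / 1000 * b) * c := by linarith
    have e4 := le_of_mul_le_mul_right e3 hc0
    linarith
  refine ⟨hkb, ?_⟩
  -- multiply by `S ^ 2`
  have hSk : k * S ≤ 2005 / 1000 * (b * c) := hk
  have f1 : 0 ≤ b * S - 2005 / 1000 * (b * c) := by
    have : 0 ≤ b * (S - 2005 / 1000 * c) := mul_nonneg hb0.le (by linarith)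
    linarith
  have f2 : 0 ≤ c * S - 2005 / 1000 * (b * c) := by
    have : 0 ≤ c * (S - 2005 / 1000 * b) := mul_nonneg hc0.le (by linarith)
    linarith
  have f3 : b * S - 2005 / 1000 * (b * c) ≤ b * S - k * S := by linarith
  have f4 : c * S - 2005 / 1000 * (b * c) ≤ c * S - k * S := by linarith
  have f5 : (b * S - 2005 / 1000 * (b * c)) * (c * S - 2005 / 1000 * (b * c)) ≤
      (b * S - k * S) * (c * S - k * S) := mul_le_mul f3 f4 f2 (le_trans f1 f3)
  have f6 : (h * S) * (k * S) ≤ (h * S) * (2005 / 1000 * (b * c)) :=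
    mul_le_mul_of_nonneg_left hSk (by positivity)
  -- the polynomial inequality
  have key : 0 ≤ (S - 2005 / 1000 * c) * (S - 2005 / 1000 * b) - 2005 / 1000 * (h * S) := by
    have g1 : h * S ≤ a / 2 * S := mul_le_mul_of_nonneg_right (by linarith) hS0.le
    have g2 : (S - 2005 / 1000 * c) * (S - 2005 / 1000 * b) - 2005 / 1000 * (a / 2 * S) =
        S * (995 / 1000 * c - 1005 / 1000 * b - 25 / 10000 * a) + (2005 / 1000) ^ 2 * (b * c) := by
      rw [hS]
      ring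
    have g3 : 0 ≤ S * (995 / 1000 * c - 1005 / 1000 * b - 25 / 10000 * a) +
        (2005 / 1000) ^ 2 * (b * c) := by
      rcases le_total 0 (995 / 1000 * c - 1005 / 1000 * b - 25 / 10000 * a) with hp | hn
      · have := mul_nonneg hS0.le hp
        positivity
      · have g4 : (5 * c) * (995 / 1000 * c - 1005 / 1000 * b - 25 / 10000 * a) ≤
            S * (995 / 1000 * c - 1005 / 1000 * b - 25 / 10000 * a) :=
          mul_le_mul_of_nonpos_right (by linarith) hn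
        have g5 : 0 ≤ c * (4975 / 1000 * c - 5025 / 1000 * b - 125 / 10000 * a + 402 / 100 * b) :=
          mul_nonneg hc0.le (by linarith)
        nlinarith
    nlinarith
  have key2 := mul_nonneg (mul_nonneg hb0.le hc0.le) key
  have hfin : (h * k) * (S * S) ≤ ((b - k) * (c - k)) * (S * S) := by
    have e1 : (b * S - 2005 / 1000 * (b * c)) * (c * S - 2005 / 1000 * (b * c)) =
        (b * c) * ((S - 2005 / 1000 * c) * (S - 2005 / 1000 * b)) := by ring
    have e2 : (h * S) * (2005 / 1000 * (b * c)) = (b * c) * (2005 / 1000 * (h * S)) := by ring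
    have e3 : (h * k) * (S * S) = (h * S) * (k * S) := by ring
    have e4 : ((b - k) * (c - k)) * (S * S) = (b * S - k * S) * (c * S - k * S) := by ring
    rw [e3, e4]
    rw [e1] at f5
    rw [e2] at f6
    linarith
  exact le_of_mul_le_mul_right hfin (by positivity)

theorem est5_bal (a b c D sJ NJ C : ℕ) (hC : 1 ≤ C) (ha : 10000 ≤ a) (hab : a ≤ b) (hbc : b ≤ c)
    (hcD : c ≤ D) (hDC : D ≤ C * a) (hsJ : 2 * (c - 1) ≤ sJ) (hsJ' : sJ ≤ 2 * (D - 1))
    (hNJ : c ^ 2 ≤ NJ) :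
    ∃ h o k v e : ℕ, a = 2 * h + o ∧ o ≤ 1 ∧ k ≤ b ∧ k ≤ c ∧ h * k ≤ (b - k) * (c - k) ∧
      D ≤ 2 ^ e ∧ v ≤ e ∧
      h * (k * (c - k) + (b - k) * k + 2 * ((b - k) * (c - k) - (h - 1) * k)) + o * (b * c) ≤
        (sJ - (2 ^ v - 1)) * (h * k) ∧
      ((h * k * NJ + a * b * (2 ^ e * 2 ^ (e - v)) : ℕ) : ℝ) ≤
        (1 + 100 * (C : ℝ) ^ 3 / Real.sqrt a) *
          ((a * b * c * NJ : ℝ) / (1 + (((a : ℝ) - 1) + ((b : ℝ) - 1) + ((c : ℝ) - 1)) + sJ)) := by
  obtain ⟨h, o, hao, ho, hh⟩ : ∃ h o : ℕ, a = 2 * h + o ∧ o ≤ 1 ∧ 5000 ≤ h :=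
    ⟨a / 2, a % 2, by omega, by omega, by omega⟩
  obtain ⟨v, e, hve, hDe, heD, hv1, hv2⟩ := pow_choice a D (by omega) (by omega)
  set u : ℕ := 2 ^ v with hu
  have hu1 : 1 ≤ u := Nat.one_le_two_pow
  set W : ℝ := Real.sqrt a with hW
  have haR : (10000 : ℝ) ≤ a := by exact_mod_cast ha
  have hWW : W * W = a := Real.mul_self_sqrt (by linarith)
  have hW100 : 100 ≤ W := by
    rw [hW]
    have : Real.sqrt (100 ^ 2) ≤ Real.sqrt a := Real.sqrt_le_sqrt (by norm_num; linarith)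
    rwa [Real.sqrt_sq (by norm_num)] at this
  have hWa : 100 * W ≤ a := by nlinarith
  have huW : (u : ℝ) ≤ W := hv1
  have hua : 100 * u ≤ a := by
    have : (100 : ℝ) * u ≤ a := by linarith
    exact_mod_cast this
  obtain ⟨m, hm⟩ : ∃ m : ℕ, m + u + 3 = a + b + c + sJ := ⟨a + b + c + sJ - 3 - u, by omega⟩
  have hm3 : a + b + 3 * c ≤ m + u + 5 := by omega
  have hmpos : 0 < h * m := by
    have : 0 < m := by omega
    have : 0 < h := by omega
    positivity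
  obtain ⟨k, hlo, hhi⟩ := ceil_div (a * b * c) (h * m) hmpos
  -- real versions
  have habR : (a : ℝ) ≤ b := by exact_mod_cast hab
  have hbcR : (b : ℝ) ≤ c := by exact_mod_cast hbc
  have hcDR : (c : ℝ) ≤ D := by exact_mod_cast hcD
  have hDCR : (D : ℝ) ≤ C * a := by exact_mod_cast hDC
  have hCR : (1 : ℝ) ≤ C := by exact_mod_cast hC
  have h1R : 2 * (h : ℝ) ≤ a := by
    have : 2 * h ≤ a := by omega
    exact_mod_cast this
  have h2R : (a : ℝ) ≤ 2 * h + 1 := by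
    have : a ≤ 2 * h + 1 := by omega
    exact_mod_cast this
  have hhR : (5000 : ℝ) ≤ h := by exact_mod_cast hh
  have hh0 : (0 : ℝ) < h := by linarith
  have ha0 : (0 : ℝ) < a := by linarith
  have hb0 : (0 : ℝ) < b := by linarith
  have hc0 : (0 : ℝ) < c := by linarith
  have hD0 : (0 : ℝ) < D := by linarith
  have hk0 : (0 : ℝ) ≤ k := Nat.cast_nonneg k
  have hm3R : (a : ℝ) + b + 3 * c ≤ m + u + 5 := by exact_mod_cast hm3
  have hhiR : (h : ℝ) * m * k ≤ a * b * c + h * m := by exact_mod_cast hhi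
  have hm0 : (0 : ℝ) ≤ m := Nat.cast_nonneg m
  -- `k S ≤ 2.005 b c`
  have hkS : (k : ℝ) * (a + b + 3 * c) ≤ 2005 / 1000 * (b * c) := by
    set S : ℝ := (a : ℝ) + b + 3 * c with hS
    have hS5 : 5 * (a : ℝ) ≤ S := by linarith
    have hS5c : S ≤ 5 * c := by linarith
    have hS0 : 0 < S := by linarith
    have e1 : 9979 / 10000 * S ≤ m := by
      -- u + 5 ≤ a / 100 + a / 2000 = 0.0105 a ≤ 0.0021 S
      linarith
    -- h m k ≤ a b c + h m, a ≤ (2 + 1/5000) h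
    have e2 : (a : ℝ) ≤ 20002 / 10000 * h := by linarith
    have e3 : (h : ℝ) * (m * k) ≤ h * (20002 / 10000 * (b * c) + m) := by
      have : (a : ℝ) * (b * c) ≤ 20002 / 10000 * h * (b * c) :=
        mul_le_mul_of_nonneg_right e2 (by positivity)
      nlinarith
    have e4 : (m : ℝ) * k ≤ 20002 / 10000 * (b * c) + m := le_of_mul_le_mul_left e3 hh0
    -- (k - 1) m ≤ 2.0002 b c
    rcases le_or_gt (k : ℝ) 1 with hk1 | hk1
    · have e5 : (k : ℝ) * S ≤ 1 * S := mul_le_mul_of_nonneg_right hk1 hS0.le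
      nlinarith
    · have e5 : ((k : ℝ) - 1) * (9979 / 10000 * S) ≤ ((k : ℝ) - 1) * m :=
        mul_le_mul_of_nonneg_left e1 (by linarith)
      have e6 : ((k : ℝ) - 1) * m ≤ 20002 / 10000 * (b * c) := by linarith
      have e7 : ((k : ℝ) - 1) * S ≤ 20045 / 10000 * (b * c) := by
        have hbc0 : (0 : ℝ) ≤ (b : ℝ) * c := by positivity
        nlinarith
      have e8 : S ≤ 5 / 10000 * (b * c) := by nlinarith
      linarith
  obtain ⟨hkbR, hcellR⟩ := cell5_real a b c h k haR habR hbcR h1R hh0.le hk0 hkS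
  have hkb : k ≤ b := by exact_mod_cast hkbR
  have hkc : k ≤ c := le_trans hkb hbc
  obtain ⟨b', hb'⟩ : ∃ b', b = k + b' := ⟨b - k, by omega⟩
  obtain ⟨c', hc'⟩ : ∃ c', c = k + c' := ⟨c - k, by omega⟩
  have hbk : b - k = b' := by omega
  have hck : c - k = c' := by omega
  have hcell' : h * k ≤ b' * c' := by
    have e1 : (b : ℝ) - k = b' := by
      have : (b : ℝ) = k + b' := by exact_mod_cast hb'
      linarith
    have e2 : (c : ℝ) - k = c' := by
      have : (c : ℝ) = k + c' := by exact_mod_cast hc'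
      linarith
    rw [e1, e2] at hcellR
    exact_mod_cast hcellR
  refine ⟨h, o, k, v, e, hao, ho, hkb, hkc, ?_, hDe, hve, ?_, ?_⟩
  · rw [hbk, hck]
    exact hcell'
  · rw [hbk, hck]
    obtain ⟨g, hg⟩ : ∃ g, h = g + 1 := ⟨h - 1, by omega⟩
    have hg' : h - 1 = g := by omega
    rw [hg']
    have hsub : g * k ≤ b' * c' := le_trans (Nat.mul_le_mul_right k (by omega)) hcell'
    obtain ⟨y, hy⟩ := Nat.exists_eq_add_of_le hsub
    have hsub' : b' * c' - g * k = y := by omega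
    rw [hsub']
    obtain ⟨sJ', hsJe⟩ : ∃ sJ', sJ + 1 = sJ' + u := ⟨sJ + 1 - u, by omega⟩
    have hsJe' : sJ - (u - 1) = sJ' := by omega
    rw [hsJe']
    have z1 : (h : ℤ) = g + 1 := by exact_mod_cast hg
    have z2 : (b : ℤ) = k + b' := by exact_mod_cast hb'
    have z3 : (c : ℤ) = k + c' := by exact_mod_cast hc'
    have z4 : (b' : ℤ) * c' = g * k + y := by exact_mod_cast hy
    have z5 : (a : ℤ) = 2 * h + o := by exact_mod_cast hao
    have z6 : (m : ℤ) + u + 3 = a + b + c + sJ := by exact_mod_cast hm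
    have z7 : (a : ℤ) * b * c ≤ h * m * k := by exact_mod_cast hlo
    have z8 : (o : ℤ) ≤ 1 := by exact_mod_cast ho
    have z9 : (sJ : ℤ) + 1 = sJ' + u := by exact_mod_cast hsJe
    zify
    have e1 : (y : ℤ) = b' * c' - g * k := by linarith
    have e2 : (b' : ℤ) = b - k := by linarith
    have e3 : (c' : ℤ) = c - k := by linarith
    have e4 : (o : ℤ) = a - 2 * h := by linarith
    have e5 : (g : ℤ) = h - 1 := by linarith
    have key : (h : ℤ) * (k * c' + b' * k + 2 * y) + o * (b * c) =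
        a * b * c - h * k * (b + c + 2 * h - 2) := by
      rw [e1, e2, e3, e4, e5]
      ring
    rw [key]
    have e6 : (m : ℤ) ≤ sJ' + b + c + 2 * h - 2 := by linarith
    have e7 : (0 : ℤ) ≤ (h : ℤ) * k := by positivity
    have e8 := mul_le_mul_of_nonneg_left e6 e7
    nlinarith
  · have hmR : (m : ℝ) + u + 3 = a + b + c + sJ := by exact_mod_cast hm
    have hsJR : (sJ : ℝ) ≤ 2 * ((D : ℝ) - 1) := by
      have h3 : ((sJ : ℕ) : ℝ) ≤ ((2 * (D - 1) : ℕ) : ℝ) := by exact_mod_cast hsJ'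
      rw [Nat.cast_mul, Nat.cast_sub (by omega : 1 ≤ D)] at h3
      push_cast at h3
      exact h3
    have hden : 1 + (((a : ℝ) - 1) + ((b : ℝ) - 1) + ((c : ℝ) - 1)) + sJ = 1 + m + u := by linarith
    have hD5 : 1 + (m : ℝ) + u ≤ 5 * D := by linarith
    have hu0 : (0 : ℝ) ≤ u := Nat.cast_nonneg u
    have hrR : (h : ℝ) * k ≤ b * c := by
      have h3 : h * k ≤ b * c := by
        calc h * k ≤ b' * c' := hcell'
          _ ≤ b * c := Nat.mul_le_mul (by omega) (by omega)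
      exact_mod_cast h3
    have hNJR : (c : ℝ) ^ 2 ≤ NJ := by exact_mod_cast hNJ
    have hNJ0 : (0 : ℝ) < NJ := lt_of_lt_of_le (by positivity) hNJR
    have hAR : (((2 ^ e * 2 ^ (e - v) : ℕ) : ℝ)) * W ≤ 8 * (D : ℝ) ^ 2 := by
      -- 2 ^ (e - v) * u = 2 ^ e
      have h3 : 2 ^ (e - v) * u = 2 ^ e := by
        rw [hu, ← pow_add]
        congr 1
        omega
      have h4 : ((2 ^ (e - v) : ℕ) : ℝ) * u = ((2 ^ e : ℕ) : ℝ) := by exact_mod_cast h3
      have h5 : ((2 ^ e : ℕ) : ℝ) ≤ 2 * D := by exact_mod_cast heD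
      have h6 : W ≤ 2 * (u : ℝ) := hv2
      have h7 : (0 : ℝ) ≤ ((2 ^ e : ℕ) : ℝ) := Nat.cast_nonneg _
      have h8 : (0 : ℝ) ≤ ((2 ^ (e - v) : ℕ) : ℝ) := Nat.cast_nonneg _
      calc (((2 ^ e * 2 ^ (e - v) : ℕ) : ℝ)) * W
          = ((2 ^ e : ℕ) : ℝ) * ((2 ^ (e - v) : ℕ) : ℝ) * W := by rw [Nat.cast_mul]
        _ ≤ ((2 ^ e : ℕ) : ℝ) * ((2 ^ (e - v) : ℕ) : ℝ) * (2 * u) :=
            mul_le_mul_of_nonneg_left h6 (by positivity)
        _ = 2 * (((2 ^ e : ℕ) : ℝ) * (((2 ^ (e - v) : ℕ) : ℝ) * u)) := by ring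
        _ = 2 * (((2 ^ e : ℕ) : ℝ) * ((2 ^ e : ℕ) : ℝ)) := by rw [h4]
        _ ≤ 2 * ((2 * D) * (2 * D)) := by
            have := mul_le_mul h5 h5 h7 (by positivity : (0 : ℝ) ≤ 2 * D)
            linarith
        _ = 8 * (D : ℝ) ^ 2 := by ring
    set A : ℝ := (((2 ^ e * 2 ^ (e - v) : ℕ) : ℝ)) with hA
    have hA0 : 0 ≤ A := Nat.cast_nonneg _
    have hcast : ((h * k * NJ + a * b * (2 ^ e * 2 ^ (e - v)) : ℕ) : ℝ) =
        h * k * NJ + a * b * A := by
      rw [hA]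
      push_cast
      ring
    rw [hcast, hden, mul_div_assoc', le_div_iff₀ (by linarith)]
    have hW0 : 0 < W := by linarith
    have hRHS : (1 + 100 * (C : ℝ) ^ 3 / W) * (a * b * c * NJ : ℝ) =
        a * b * c * NJ + 100 * C ^ 3 * (W * (b * c * NJ)) := by
      rw [← hWW]
      field_simp
    rw [hRHS]
    have hX0 : (0 : ℝ) ≤ b * c * NJ := by positivity
    -- terms
    have t1 : (h : ℝ) * k * (1 + u) * NJ ≤ 2 * (W * (b * c * NJ)) := by
      have e1 : 1 + (u : ℝ) ≤ 2 * W := by linarith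
      have e2 : (h : ℝ) * k * (1 + u) ≤ (b * c) * (2 * W) :=
        mul_le_mul hrR e1 (by linarith) (by positivity)
      have e3 := mul_le_mul_of_nonneg_right e2 hNJ0.le
      calc (h : ℝ) * k * (1 + u) * NJ ≤ (b * c) * (2 * W) * NJ := e3
        _ = _ := by ring
    have t2 : (NJ : ℝ) * (h * m * k) ≤ NJ * (a * b * c + h * m) :=
      mul_le_mul_of_nonneg_left hhiR hNJ0.le
    have t3 : (NJ : ℝ) * (h * m) ≤ 3 * C * (W * (b * c * NJ)) := by
      have e1 : (m : ℝ) ≤ 5 * D := by linarith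
      have e2 : (h : ℝ) * m ≤ (a / 2) * (5 * D) := mul_le_mul (by linarith) e1 hm0 (by positivity)
      have e3 : (D : ℝ) ≤ C * b := le_trans hDCR (mul_le_mul_of_nonneg_left habR (by linarith))
      have e5 : (a : ℝ) * D ≤ c * (C * b) := mul_le_mul (by linarith) e3 hD0.le hc0.le
      have e6 : (h : ℝ) * m ≤ 5 / 2 * (C * (b * c)) := by nlinarith
      have e7 : (NJ : ℝ) * (h * m) ≤ NJ * (5 / 2 * (C * (b * c))) :=
        mul_le_mul_of_nonneg_left e6 hNJ0.le
      have e8 : (0 : ℝ) ≤ C * (b * c * NJ) := by positivity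
      have e9 : 1 * (C * (b * c * NJ)) ≤ W * (C * (b * c * NJ)) :=
        mul_le_mul_of_nonneg_right (by linarith) e8
      nlinarith
    have t4 : (a : ℝ) * b * A * (1 + m + u) ≤ 40 * C ^ 3 * (W * (b * c * NJ)) := by
      -- multiply by `W`
      have e1 : (a : ℝ) * b * (A * W) * (1 + m + u) ≤ (a * b * (8 * (D : ℝ) ^ 2)) * (5 * D) := by
        refine mul_le_mul ?_ hD5 (by linarith) (by positivity)
        exact mul_le_mul_of_nonneg_left hAR (by positivity)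
      have e3 : (D : ℝ) ^ 3 ≤ (C * a) ^ 3 := pow_le_pow_left₀ hD0.le hDCR 3
      have e5 : (a : ℝ) * b * a ^ 3 ≤ (a * (b * c)) * NJ := by
        have e6 : (a : ℝ) ^ 3 ≤ c * NJ := by
          calc (a : ℝ) ^ 3 ≤ c ^ 3 := pow_le_pow_left₀ ha0.le (by linarith) 3
            _ = c * c ^ 2 := by ring
            _ ≤ c * NJ := mul_le_mul_of_nonneg_left hNJR hc0.le
        calc (a : ℝ) * b * a ^ 3 ≤ a * b * (c * NJ) := mul_le_mul_of_nonneg_left e6 (by positivity)
          _ = _ := by ring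
      have e7 : ((a : ℝ) * b * A * (1 + m + u)) * W ≤ (40 * C ^ 3 * (W * (b * c * NJ))) * W := by
        calc ((a : ℝ) * b * A * (1 + m + u)) * W = (a : ℝ) * b * (A * W) * (1 + m + u) := by ring
          _ ≤ (a * b * (8 * (D : ℝ) ^ 2)) * (5 * D) := e1
          _ = 40 * (a * b) * D ^ 3 := by ring
          _ ≤ 40 * (a * b) * (C * a) ^ 3 := mul_le_mul_of_nonneg_left e3 (by positivity)
          _ = 40 * C ^ 3 * (a * b * a ^ 3) := by ring
          _ ≤ 40 * C ^ 3 * ((a * (b * c)) * NJ) := mul_le_mul_of_nonneg_left e5 (by positivity)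
          _ = (40 * C ^ 3 * (W * (b * c * NJ))) * W := by rw [← hWW]; ring
      exact le_of_mul_le_mul_right e7 hW0
    have hY0 : 0 ≤ W * (b * c * NJ) := by positivity
    have t6 : 2 + 3 * (C : ℝ) + 40 * C ^ 3 ≤ 100 * C ^ 3 := by
      have e1 : (C : ℝ) ≤ C ^ 3 := by nlinarith [sq_nonneg ((C : ℝ) - 1)]
      linarith
    have t7 := mul_le_mul_of_nonneg_right t6 hY0
    calc ((h : ℝ) * k * NJ + a * b * A) * (1 + m + u)
        = h * k * (1 + u) * NJ + NJ * (h * m * k) + a * b * A * (1 + m + u) := by ring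
      _ ≤ 2 * (W * (b * c * NJ)) + (NJ * (a * b * c) + 3 * C * (W * (b * c * NJ))) +
          40 * C ^ 3 * (W * (b * c * NJ)) := by
          have : (NJ : ℝ) * (a * b * c + h * m) = NJ * (a * b * c) + NJ * (h * m) := by ring
          linarith
      _ = a * b * c * NJ + (2 + 3 * (C : ℝ) + 40 * C ^ 3) * (W * (b * c * NJ)) := by ring
      _ ≤ _ := by linarith

end Pool.Agent.H43.TR
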