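import Mathlib

/-!
MP_b12e0e_ag (helper43): arithmetic for the theorem on balanced formats.
-/

set_option autoImplicit false

namespace Pool.Agent.H43.TR

theorem ceil_div (x d : ℕ) (hd : 0 < d) : ∃ k : ℕ, x ≤ d * k ∧ d * k ≤ x + d := by
  refine ⟨(x + d - 1) / d, ?_, ?_⟩
  · have h1 := Nat.div_add_mod (x + d - 1) d
    have h2 := Nat.mod_lt (x + d - 1) hd
    omega
  · have h1 := Nat.div_add_mod (x + d - 1) d
    omega

/-- the room for the cells -/
theorem cell_real (a b c h s : ℝ) (ha : 40 ≤ a) (hab : a ≤ b) (hbc : b ≤ c) (h1 : 2 * h ≤ a)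
    (h2 : a ≤ 2 * h + 1) (h20 : 20 ≤ h) (hs : a + b + 4 * c - 6 ≤ s) :
    (a * b * c + h * s) * (h + b + c) ≤ h * s * (b * c) := by
  have hb : 40 ≤ b := by linarith
  have hc : 40 ≤ c := by linarith
  have hh0 : 0 < h := by linarith
  have hb0 : 0 < b := by linarith
  have hc0 : 0 < c := by linarith
  set w := h + b + c with hw
  have hw1 : w ≤ 5 / 2 * c := by linarith
  have hw0 : 0 < w := by linarith
  have hwbc : w ≤ b * c := by nlinarith
  -- the main inequality divided by `c`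
  have key : a * b * w + 15 * (h * c) ≤ h * b * (a + b + 4 * c - 6) := by
    have e1 : a * b * w ≤ (2 * h + 1) * b * w :=
      mul_le_mul_of_nonneg_right (mul_le_mul_of_nonneg_right h2 hb0.le) hw0.le
    have e2 : b * w ≤ 5 / 2 * (b * c) := by nlinarith
    have e3 : 20 * (b * c) ≤ h * (b * c) := mul_le_mul_of_nonneg_right h20 (by positivity)
    have e4 : 40 * (h * c) ≤ b * (h * c) := mul_le_mul_of_nonneg_right hb (by positivity)
    have e5 : 40 * (h * b) ≤ c * (h * b) := mul_le_mul_of_nonneg_right hc (by positivity)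
    have e6 : 0 ≤ h * b * (a - 2 * h) := by
      have : 0 ≤ a - 2 * h := by linarith
      positivity
    have e7 : 0 ≤ h * b * (c - b) := by
      have : 0 ≤ c - b := by linarith
      positivity
    have e8 : h * b * (a + b + 4 * c - 6) - (2 * h + 1) * b * w =
        h * b * (a - 2 * h) + h * b * (c - b) + h * b * c - 6 * (h * b) - b * w := by
      rw [hw]
      ring
    have e9 : b * (h * c) = h * b * c := by ring
    have e10 : h * (b * c) = h * b * c := by ring
    have e11 : c * (h * b) = h * b * c := by ring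
    rw [e9] at e4
    rw [e10] at e3
    rw [e11] at e5
    have e12 : 0 ≤ h * b * c := by positivity
    linarith
  have hS0 : a + b + 4 * c - 6 ≤ 6 * c := by linarith
  have hSw : h * ((a + b + 4 * c - 6) * w) ≤ 15 * (h * c) * c := by
    have e1 : (a + b + 4 * c - 6) * w ≤ (6 * c) * (5 / 2 * c) :=
      mul_le_mul hS0 hw1 hw0.le (by positivity)
    have e2 := mul_le_mul_of_nonneg_left e1 hh0.le
    calc h * ((a + b + 4 * c - 6) * w) ≤ h * ((6 * c) * (5 / 2 * c)) := e2
      _ = 15 * (h * c) * c := by ring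
  have key2 := mul_le_mul_of_nonneg_right key hc0.le
  have hmono : h * (a + b + 4 * c - 6) * (b * c - w) ≤ h * s * (b * c - w) :=
    mul_le_mul_of_nonneg_right (mul_le_mul_of_nonneg_left hs hh0.le) (by linarith)
  nlinarith

theorem est_bal (t a b c D sJ NJ C : ℕ) (hC : 1 ≤ C) (ht : 3 ≤ t) (ha : 40 ≤ a) (hab : a ≤ b)
    (hbc : b ≤ c) (hcD : c ≤ D) (hDC : D ≤ C * a) (hsJ : t * (c - 1) ≤ sJ)
    (hsJ' : sJ ≤ t * (D - 1)) (hNJ : c ^ t ≤ NJ) :
    ∃ h o k : ℕ, a = 2 * h + o ∧ o ≤ 1 ∧ k ≤ b ∧ k ≤ c ∧ h * k ≤ (b - k) * (c - k) ∧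
      h * (k * (c - k) + (b - k) * k + 2 * ((b - k) * (c - k) - (h - 1) * k)) + o * (b * c) ≤
        sJ * (h * k) ∧
      ∀ A : ℕ, A ≤ 4 * D ^ 2 * t →
        ((h * k * NJ + a * b * A : ℕ) : ℝ) ≤
          (1 + 6 * (C : ℝ) ^ 3 * (t + 3 : ℝ) ^ 2 / a) *
            ((a * b * c * NJ : ℝ) / (1 + (((a : ℝ) - 1) + ((b : ℝ) - 1) + ((c : ℝ) - 1)) + sJ)) := by
  obtain ⟨h, o, hao, ho, hh⟩ : ∃ h o : ℕ, a = 2 * h + o ∧ o ≤ 1 ∧ 20 ≤ h :=
    ⟨a / 2, a % 2, by omega, by omega, by omega⟩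
  obtain ⟨s, hs⟩ : ∃ s : ℕ, s + 3 = a + b + c + sJ := ⟨a + b + c + sJ - 3, by omega⟩
  have hs3 : a + b + 4 * c ≤ s + 6 := by
    have h1 : 3 * (c - 1) ≤ t * (c - 1) := Nat.mul_le_mul_right _ ht
    omega
  have hspos : 0 < h * s := by
    have : 0 < s := by omega
    have : 0 < h := by omega
    positivity
  obtain ⟨k, hlo, hhi⟩ := ceil_div (a * b * c) (h * s) hspos
  -- real versions
  have haR : (40 : ℝ) ≤ a := by exact_mod_cast ha
  have habR : (a : ℝ) ≤ b := by exact_mod_cast hab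
  have hbcR : (b : ℝ) ≤ c := by exact_mod_cast hbc
  have hcDR : (c : ℝ) ≤ D := by exact_mod_cast hcD
  have hDCR : (D : ℝ) ≤ C * a := by exact_mod_cast hDC
  have hCR : (1 : ℝ) ≤ C := by exact_mod_cast hC
  have htR : (3 : ℝ) ≤ t := by exact_mod_cast ht
  have h1R : 2 * (h : ℝ) ≤ a := by
    have : 2 * h ≤ a := by omega
    exact_mod_cast this
  have h2R : (a : ℝ) ≤ 2 * h + 1 := by
    have : a ≤ 2 * h + 1 := by omega
    exact_mod_cast this
  have h20R : (20 : ℝ) ≤ h := by exact_mod_cast hh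
  have hs3R : (a : ℝ) + b + 4 * c - 6 ≤ s := by
    have : ((a + b + 4 * c : ℕ) : ℝ) ≤ ((s + 6 : ℕ) : ℝ) := by exact_mod_cast hs3
    push_cast at this
    linarith
  have hcell := cell_real a b c h s haR habR hbcR h1R h2R h20R hs3R
  have hcellN : (a * b * c + h * s) * (h + b + c) ≤ h * s * (b * c) := by exact_mod_cast hcell
  have hkw : k * (h + b + c) ≤ b * c := by
    have h3 : (h * s) * (k * (h + b + c)) ≤ (h * s) * (b * c) := by
      calc (h * s) * (k * (h + b + c)) = (h * s * k) * (h + b + c) := by ring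
        _ ≤ (a * b * c + h * s) * (h + b + c) := Nat.mul_le_mul_right _ hhi
        _ ≤ h * s * (b * c) := hcellN
    exact Nat.le_of_mul_le_mul_left h3 hspos
  have hb0 : 0 < b := by omega
  have hc0 : 0 < c := by omega
  have hkb : k ≤ b := by
    have h3 : k * c ≤ b * c := le_trans (Nat.mul_le_mul_left k (by omega)) hkw
    exact Nat.le_of_mul_le_mul_right h3 hc0
  have hkc : k ≤ c := le_trans hkb hbc
  obtain ⟨b', hb'⟩ : ∃ b', b = k + b' := ⟨b - k, by omega⟩
  obtain ⟨c', hc'⟩ : ∃ c', c = k + c' := ⟨c - k, by omega⟩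
  have hbk : b - k = b' := by omega
  have hck : c - k = c' := by omega
  have hcell' : h * k ≤ b' * c' := by
    have h3 : k * h + k * b + k * c ≤ b * c := by
      calc k * h + k * b + k * c = k * (h + b + c) := by ring
        _ ≤ b * c := hkw
    have h4 : b * c + k * k = b' * c' + k * b + k * c := by
      rw [hb', hc']
      ring
    have h5 : h * k = k * h := Nat.mul_comm _ _
    rw [h5]
    have h6 : 0 ≤ k * k := Nat.zero_le _
    omega
  refine ⟨h, o, k, hao, ho, hkb, hkc, ?_, ?_, ?_⟩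
  · rw [hbk, hck]
    exact hcell'
  · rw [hbk, hck]
    obtain ⟨g, hg⟩ : ∃ g, h = g + 1 := ⟨h - 1, by omega⟩
    have hg' : h - 1 = g := by omega
    rw [hg']
    have hsub : g * k ≤ b' * c' := le_trans (Nat.mul_le_mul_right k (by omega)) hcell'
    obtain ⟨y, hy⟩ := Nat.exists_eq_add_of_le hsub
    have hsub' : b' * c' - g * k = y := by omega
    rw [hsub']
    have z1 : (h : ℤ) = g + 1 := by exact_mod_cast hg
    have z2 : (b : ℤ) = k + b' := by exact_mod_cast hb'
    have z3 : (c : ℤ) = k + c' := by exact_mod_cast hc'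
    have z4 : (b' : ℤ) * c' = g * k + y := by exact_mod_cast hy
    have z5 : (a : ℤ) = 2 * h + o := by exact_mod_cast hao
    have z6 : (s : ℤ) + 3 = a + b + c + sJ := by exact_mod_cast hs
    have z7 : (a : ℤ) * b * c ≤ h * s * k := by exact_mod_cast hlo
    have z8 : (o : ℤ) ≤ 1 := by exact_mod_cast ho
    zify
    have e1 : (y : ℤ) = b' * c' - g * k := by linarith
    have e2 : (b' : ℤ) = b - k := by linarith
    have e3 : (c' : ℤ) = c - k := by linarith
    have e4 : (o : ℤ) = a - 2 * h := by linarith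
    have e5 : (g : ℤ) = h - 1 := by linarith
    have key : (h : ℤ) * (k * c' + b' * k + 2 * y) + o * (b * c) =
        a * b * c - h * k * (b + c + 2 * h - 2) := by
      rw [e1, e2, e3, e4, e5]
      ring
    rw [key]
    have e6 : (s : ℤ) ≤ sJ + b + c + 2 * h - 2 := by linarith
    have e7 : (0 : ℤ) ≤ (h : ℤ) * k := by positivity
    have e8 := mul_le_mul_of_nonneg_left e6 e7
    nlinarith
  · intro A hA
    have hk0 : (0 : ℝ) ≤ k := Nat.cast_nonneg k
    have hh0 : (0 : ℝ) < h := by linarith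
    have ha0 : (0 : ℝ) < a := by linarith
    have hb0R : (0 : ℝ) < b := by linarith
    have hc0R : (0 : ℝ) < c := by linarith
    have hD0 : (0 : ℝ) < D := by linarith
    have hsR : (s : ℝ) + 3 = a + b + c + sJ := by exact_mod_cast hs
    have hsJR : (sJ : ℝ) ≤ t * ((D : ℝ) - 1) := by
      have h3 : ((sJ : ℕ) : ℝ) ≤ ((t * (D - 1) : ℕ) : ℝ) := by exact_mod_cast hsJ'
      rw [Nat.cast_mul, Nat.cast_sub (by omega : 1 ≤ D), Nat.cast_one] at h3
      exact h3
    have hs1 : 1 + (s : ℝ) ≤ (t + 3) * D := by nlinarith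
    have hden : 1 + (((a : ℝ) - 1) + ((b : ℝ) - 1) + ((c : ℝ) - 1)) + sJ = 1 + s := by linarith
    have hs0 : (0 : ℝ) ≤ s := Nat.cast_nonneg s
    have hAR : (A : ℝ) ≤ 4 * (D : ℝ) ^ 2 * t := by exact_mod_cast hA
    have hhiR : (h : ℝ) * s * k ≤ a * b * c + h * s := by exact_mod_cast hhi
    have hrR : (h : ℝ) * k ≤ b * c := by
      have h3 : h * k ≤ b * c := by
        calc h * k = k * h := Nat.mul_comm _ _
          _ ≤ k * (h + b + c) := Nat.mul_le_mul_left k (by omega)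
          _ ≤ b * c := hkw
      exact_mod_cast h3
    have hNJR : (a : ℝ) ^ 3 ≤ NJ := by
      have h3 : a ^ 3 ≤ NJ := by
        calc a ^ 3 ≤ c ^ 3 := Nat.pow_le_pow_left (by omega) 3
          _ ≤ c ^ t := Nat.pow_le_pow_right hc0 ht
          _ ≤ NJ := hNJ
      exact_mod_cast h3
    have hNJ0 : (0 : ℝ) < NJ := lt_of_lt_of_le (by positivity) hNJR
    have hcast : ((h * k * NJ + a * b * A : ℕ) : ℝ) = h * k * NJ + a * b * A := by push_cast; ring
    rw [hcast, hden, mul_div_assoc', le_div_iff₀ (by linarith)]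
    have hRHS : (1 + 6 * (C : ℝ) ^ 3 * (t + 3 : ℝ) ^ 2 / a) * (a * b * c * NJ : ℝ) =
        a * b * c * NJ + 6 * C ^ 3 * (t + 3) ^ 2 * (b * c * NJ) := by
      field_simp
    rw [hRHS]
    have hX0 : (0 : ℝ) ≤ b * c * NJ := by positivity
    -- terms
    have t1 : (h : ℝ) * k * NJ ≤ b * c * NJ := mul_le_mul_of_nonneg_right hrR hNJ0.le
    have t2 : (NJ : ℝ) * (h * s * k) ≤ NJ * (a * b * c + h * s) :=
      mul_le_mul_of_nonneg_left hhiR hNJ0.le
    have t3 : (h : ℝ) * s ≤ (t + 3) / 2 * C * (b * c) := by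
      have e1 : (s : ℝ) ≤ (t + 3) * D := by linarith
      have e2 : (h : ℝ) * s ≤ (a / 2) * ((t + 3) * D) :=
        mul_le_mul (by linarith) e1 hs0 (by positivity)
      have e3 : (D : ℝ) ≤ C * b := le_trans hDCR (mul_le_mul_of_nonneg_left habR (by linarith))
      have e4 : (a : ℝ) ≤ c := by linarith
      have e5 : (a : ℝ) * D ≤ c * (C * b) := mul_le_mul e4 e3 hD0.le hc0R.le
      have e6 : (0 : ℝ) ≤ (t + 3) / 2 := by positivity
      have e7 := mul_le_mul_of_nonneg_left e5 e6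
      calc (h : ℝ) * s ≤ (a / 2) * ((t + 3) * D) := e2
        _ = (t + 3) / 2 * (a * D) := by ring
        _ ≤ (t + 3) / 2 * (c * (C * b)) := e7
        _ = (t + 3) / 2 * C * (b * c) := by ring
    have t4 : (a : ℝ) * b * A * (1 + s) ≤ 4 * t * (t + 3) * C ^ 3 * (b * c * NJ) := by
      have e1 : (a : ℝ) * b * A ≤ a * b * (4 * (D : ℝ) ^ 2 * t) :=
        mul_le_mul_of_nonneg_left hAR (by positivity)
      have e2 : (a : ℝ) * b * A * (1 + s) ≤ (a * b * (4 * (D : ℝ) ^ 2 * t)) * ((t + 3) * D) :=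
        mul_le_mul e1 hs1 (by linarith) (by positivity)
      have e3 : (D : ℝ) ^ 3 ≤ (C * a) ^ 3 := pow_le_pow_left₀ hD0.le hDCR 3
      have e4 : (0 : ℝ) ≤ 4 * t * (t + 3) * (a * b) := by positivity
      have e5 : (a : ℝ) * b * a ^ 3 ≤ (c * b) * NJ :=
        mul_le_mul (mul_le_mul_of_nonneg_right (by linarith) hb0R.le) hNJR (by positivity)
          (by positivity)
      have e6 : (0 : ℝ) ≤ 4 * t * (t + 3) * C ^ 3 := by positivity
      calc (a : ℝ) * b * A * (1 + s) ≤ (a * b * (4 * (D : ℝ) ^ 2 * t)) * ((t + 3) * D) := e2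
        _ = 4 * t * (t + 3) * (a * b) * D ^ 3 := by ring
        _ ≤ 4 * t * (t + 3) * (a * b) * (C * a) ^ 3 := mul_le_mul_of_nonneg_left e3 e4
        _ = 4 * t * (t + 3) * C ^ 3 * (a * b * a ^ 3) := by ring
        _ ≤ 4 * t * (t + 3) * C ^ 3 * ((c * b) * NJ) := mul_le_mul_of_nonneg_left e5 e6
        _ = _ := by ring
    have t5 : (NJ : ℝ) * (h * s) ≤ (t + 3) / 2 * C * (b * c * NJ) := by
      have := mul_le_mul_of_nonneg_left t3 hNJ0.le
      calc (NJ : ℝ) * (h * s) ≤ NJ * ((t + 3) / 2 * C * (b * c)) := this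
        _ = _ := by ring
    have t6 : 1 + ((t : ℝ) + 3) / 2 * C + 4 * t * (t + 3) * C ^ 3 ≤ 6 * C ^ 3 * (t + 3) ^ 2 := by
      have e1 : (C : ℝ) ≤ C ^ 3 := by nlinarith [sq_nonneg ((C : ℝ) - 1)]
      have e2 : (1 : ℝ) ≤ C ^ 3 := by linarith
      have e3 : (0 : ℝ) ≤ ((t : ℝ) + 3) / 2 := by positivity
      have e4 := mul_le_mul_of_nonneg_left e1 e3
      have e5 : (C : ℝ) ^ 3 * (1 + ((t : ℝ) + 3) / 2 + 4 * t * (t + 3)) ≤
          C ^ 3 * (6 * (t + 3) ^ 2) := by
        refine mul_le_mul_of_nonneg_left ?_ (by linarith)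
        nlinarith
      nlinarith
    have t7 := mul_le_mul_of_nonneg_right t6 hX0
    calc ((h : ℝ) * k * NJ + a * b * A) * (1 + s)
        = h * k * NJ + NJ * (h * s * k) + a * b * A * (1 + s) := by ring
      _ ≤ b * c * NJ + (NJ * (a * b * c) + (t + 3) / 2 * C * (b * c * NJ)) +
          4 * t * (t + 3) * C ^ 3 * (b * c * NJ) := by
          have : (NJ : ℝ) * (a * b * c + h * s) = NJ * (a * b * c) + NJ * (h * s) := by ring
          linarith
      _ = a * b * c * NJ + (1 + ((t : ℝ) + 3) / 2 * C + 4 * t * (t + 3) * C ^ 3) *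
          (b * c * NJ) := by ring
      _ ≤ _ := by linarith

end Pool.Agent.H43.TR
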