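import Mathlib

/-!
MP_b12e0e_ag (helper43): arithmetic for the fixed order theorem.
-/

set_option autoImplicit false

namespace Pool.Agent.H43.TR

theorem est_fix_k (n q h : ℕ) (hn : 6 ≤ n) (hq : 12 ≤ q) (h1 : 2 * h ≤ q) (h2 : q ≤ 2 * h + 1) :
    ∃ k : ℕ, 1 ≤ k ∧ 3 * k ≤ q + 5 ∧ q ^ 3 ≤ h * n * (q - 1) * k ∧
      h * n * (q - 1) * k ≤ q ^ 3 + h * n * (q - 1) := by
  obtain ⟨p, rfl⟩ : ∃ p, q = p + 1 := ⟨q - 1, by omega⟩
  rw [Nat.add_sub_cancel]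
  set D := h * n * p with hD
  have hh : 1 ≤ h := by omega
  have hDpos : 0 < D := by
    rw [hD]
    have : 0 < n := by omega
    have : 0 < p := by omega
    positivity
  have hmod := Nat.div_add_mod ((p + 1) ^ 3 + D - 1) D
  have hlt := Nat.mod_lt ((p + 1) ^ 3 + D - 1) hDpos
  set k := ((p + 1) ^ 3 + D - 1) / D with hk
  have hpos : 0 < (p + 1) ^ 3 := by positivity
  have hlo : (p + 1) ^ 3 ≤ D * k := by omega
  have hhi : D * k < (p + 1) ^ 3 + D := by omega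
  have hk1 : 1 ≤ k := by
    rcases Nat.eq_zero_or_pos k with h0 | h0
    · rw [h0] at hlo
      omega
    · exact h0
  refine ⟨k, hk1, ?_, hlo, hhi.le⟩
  -- D ≥ 3 p²
  have hD3 : 3 * p ^ 2 ≤ D := by
    rw [hD]
    have h3 : p ≤ 2 * h := by omega
    calc 3 * p ^ 2 = 3 * p * p := by ring
      _ ≤ (h * n) * p := by
        refine Nat.mul_le_mul_right p ?_
        calc 3 * p ≤ 3 * (2 * h) := Nat.mul_le_mul_left 3 h3
          _ = h * 6 := by ring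
          _ ≤ h * n := Nat.mul_le_mul_left h hn
      _ = h * n * p := rfl
  by_contra hcon
  push Not at hcon
  -- 3 (k - 1) ≥ q + 3
  obtain ⟨j, hjk⟩ : ∃ j, k = j + 1 := ⟨k - 1, by omega⟩
  have hj : p + 4 ≤ 3 * j := by omega
  have h4 : D * j < (p + 1) ^ 3 := by
    have h8 : D * (j + 1) = D * j + D := by ring
    rw [hjk, h8] at hhi
    omega
  have h5 : 3 * p ^ 2 * (p + 4) ≤ 3 * (D * j) := by
    calc 3 * p ^ 2 * (p + 4) ≤ D * (3 * j) := Nat.mul_le_mul hD3 hj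
      _ = 3 * (D * j) := by ring
  have h6 : (p + 1) ^ 3 ≤ p ^ 2 * (p + 4) := by
    have h7 : 11 ≤ p := by omega
    nlinarith [Nat.mul_le_mul h7 h7]
  have h9 : 3 * p ^ 2 * (p + 4) = 3 * (p ^ 2 * (p + 4)) := by ring
  rw [h9] at h5
  omega

theorem est_fix (n q : ℕ) (hn : 6 ≤ n) (hq : 12 ≤ q) :
    ∃ h o k : ℕ, q = 2 * h + o ∧ o ≤ 1 ∧ 1 ≤ h ∧ 1 ≤ k ∧ k ≤ q ∧ h * k ≤ (q - k) ^ 2 ∧
      h * (2 * (k * (q - k)) + 2 * ((q - k) ^ 2 - (h - 1) * k)) + o * q ^ 2 ≤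
        ((n - 3) * (q - 1)) * (h * k) ∧
      ∀ A : ℕ, A ≤ 4 * q ^ 2 * (n - 3) →
        ((h * k * q ^ (n - 3) + q ^ 2 * A : ℕ) : ℝ) ≤
          (1 + 5 * (n : ℝ) ^ 2 / q) * ((q : ℝ) ^ n / (1 + n * ((q : ℝ) - 1))) := by
  obtain ⟨h, o, hqo, ho, hh⟩ : ∃ h o : ℕ, q = 2 * h + o ∧ o ≤ 1 ∧ 1 ≤ h :=
    ⟨q / 2, q % 2, by omega, by omega, by omega⟩
  obtain ⟨k, hk1, hk3, hlo, hhi⟩ := est_fix_k n q h hn hq (by omega) (by omega)
  have hkq : k ≤ q := by omega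
  obtain ⟨m, hm⟩ : ∃ m, q = k + m := ⟨q - k, by omega⟩
  have hqk : q - k = m := by omega
  have hcell : h * k ≤ m ^ 2 := by
    have h1 : 2 * q ≤ 3 * m + 5 := by omega
    have h2 : 2 * h ≤ q := by omega
    have h3 : 6 * (h * k) ≤ q * (q + 5) := by
      calc 6 * (h * k) = (2 * h) * (3 * k) := by ring
        _ ≤ q * (q + 5) := Nat.mul_le_mul h2 hk3
    -- 9 m² ≥ (2q - 5)²
    have h4 : (2 * q - 5) ^ 2 ≤ 9 * m ^ 2 := by
      calc (2 * q - 5) ^ 2 ≤ (3 * m) ^ 2 := Nat.pow_le_pow_left (by omega) 2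
        _ = 9 * m ^ 2 := by ring
    obtain ⟨z, hz⟩ : ∃ z, 2 * q = z + 5 := ⟨2 * q - 5, by omega⟩
    have hz' : 2 * q - 5 = z := by omega
    rw [hz'] at h4
    have hz19 : 19 ≤ z := by omega
    -- 3 q (q+5) ≤ 2 z²
    have h5 : 3 * (q * (q + 5)) ≤ 2 * z ^ 2 := by
      have h6 : 4 * (3 * (q * (q + 5))) ≤ 4 * (2 * z ^ 2) := by
        have h7 : 4 * (3 * (q * (q + 5))) = 3 * ((2 * q) * (2 * q + 10)) := by ring
        rw [h7, hz]
        nlinarith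
      omega
    nlinarith
  refine ⟨h, o, k, hqo, ho, hh, hk1, hkq, ?_, ?_, ?_⟩
  · rw [hqk]
    exact hcell
  · rw [hqk]
    obtain ⟨g, rfl⟩ : ∃ g, h = g + 1 := ⟨h - 1, by omega⟩
    rw [Nat.add_sub_cancel]
    have hsub : g * k ≤ m ^ 2 := le_trans (Nat.mul_le_mul_right k (by omega)) hcell
    obtain ⟨y, hy⟩ := Nat.exists_eq_add_of_le hsub
    have hsub' : m ^ 2 - g * k = y := by omega
    rw [hsub']
    obtain ⟨n', rfl⟩ : ∃ n', n = n' + 3 := ⟨n - 3, by omega⟩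
    rw [Nat.add_sub_cancel]
    obtain ⟨p, hp⟩ : ∃ p, q = p + 1 := ⟨q - 1, by omega⟩
    have hp' : q - 1 = p := by omega
    rw [hp'] at hlo ⊢
    -- everything over ℤ
    zify at *
    have e1 : (y : ℤ) = m ^ 2 - g * k := by linarith
    have e2 : (q : ℤ) = k + m := by exact_mod_cast hm
    have e3 : (q : ℤ) = 2 * (g + 1) + o := by exact_mod_cast hqo
    have e4 : (q : ℤ) = p + 1 := by exact_mod_cast hp
    have key : ((g : ℤ) + 1) * (2 * (k * m) + 2 * y) + o * q ^ 2 =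
        q ^ 3 - (g + 1) * k * (2 * q + 2 * g) := by
      have e5 : (o : ℤ) = q - 2 * (g + 1) := by linarith
      have e6 : (m : ℤ) = q - k := by linarith
      rw [e1, e5, e6]
      ring
    rw [key]
    have e7 : (3 : ℤ) * p ≤ 2 * q + 2 * g := by linarith
    have e8 : (0 : ℤ) ≤ ((g : ℤ) + 1) * k := by positivity
    nlinarith [mul_le_mul_of_nonneg_left e7 e8]
  · intro A hA
    have hqR : (12 : ℝ) ≤ q := by exact_mod_cast hq
    have hnR : (6 : ℝ) ≤ n := by exact_mod_cast hn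
    have hden : (0 : ℝ) < 1 + n * ((q : ℝ) - 1) := by nlinarith
    obtain ⟨n', hn'⟩ : ∃ n', n = n' + 6 := ⟨n - 6, by omega⟩
    have hq0 : (0 : ℝ) < q := by linarith
    set P : ℝ := (q : ℝ) ^ (n - 3) with hP
    have hPn : (q : ℝ) ^ n = P * q ^ 3 := by
      rw [hP, ← pow_add]
      congr 1
      omega
    have hP3 : (q : ℝ) ^ 3 ≤ P := by
      rw [hP]
      exact pow_le_pow_right₀ (by linarith) (by omega)
    have hP0 : 0 < P := lt_of_lt_of_le (by positivity) hP3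
    have hAR : (A : ℝ) ≤ 4 * (q : ℝ) ^ 2 * ((n : ℝ) - 3) := by
      have h1 : ((A : ℕ) : ℝ) ≤ ((4 * q ^ 2 * (n - 3) : ℕ) : ℝ) := by exact_mod_cast hA
      rw [Nat.cast_mul, Nat.cast_sub (by omega : 3 ≤ n)] at h1
      push_cast at h1
      exact h1
    have hhR : 2 * (h : ℝ) ≤ q := by
      have : 2 * h ≤ q := by omega
      exact_mod_cast this
    have hkR : 3 * (k : ℝ) ≤ q + 5 := by exact_mod_cast hk3
    have hh0 : (0 : ℝ) ≤ h := Nat.cast_nonneg h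
    have hk0 : (0 : ℝ) ≤ k := Nat.cast_nonneg k
    have hhk : 3 * ((h : ℝ) * k) ≤ (q : ℝ) ^ 2 := by
      have h1 : (2 * (h : ℝ)) * (3 * k) ≤ q * (q + 5) :=
        mul_le_mul hhR hkR (by positivity) (by positivity)
      nlinarith
    have hhiR : (h : ℝ) * n * (q - 1) * k ≤ (q : ℝ) ^ 3 + h * n * (q - 1) := by
      have h1 : ((h * n * (q - 1) * k : ℕ) : ℝ) ≤ ((q ^ 3 + h * n * (q - 1) : ℕ) : ℝ) := by
        exact_mod_cast hhi
      have h2 : ((q - 1 : ℕ) : ℝ) = (q : ℝ) - 1 := by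
        rw [Nat.cast_sub (by omega), Nat.cast_one]
      push_cast [h2] at h1
      exact h1
    rw [mul_div_assoc', le_div_iff₀ hden, hPn]
    have hcast : ((h * k * q ^ (n - 3) + q ^ 2 * A : ℕ) : ℝ) = h * k * P + (q : ℝ) ^ 2 * A := by
      push_cast
      rw [hP]
    rw [hcast]
    have hR : (1 + 5 * (n : ℝ) ^ 2 / q) * (P * (q : ℝ) ^ 3) = P * q ^ 3 + 5 * n ^ 2 * P * q ^ 2 := by
      field_simp
    rw [hR]
    -- the four terms
    have t1 : (h : ℝ) * k * P ≤ P * q ^ 2 := by nlinarith [mul_nonneg hP0.le (sq_nonneg (q : ℝ))]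
    have t2 : P * ((h : ℝ) * n * (q - 1) * k) ≤ P * ((q : ℝ) ^ 3 + h * n * (q - 1)) :=
      mul_le_mul_of_nonneg_left hhiR hP0.le
    have t3 : (h : ℝ) * n * (q - 1) ≤ n * q ^ 2 := by
      have h1 : (h : ℝ) ≤ q := by linarith
      have h2 : (h : ℝ) * (q - 1) ≤ q * q := mul_le_mul h1 (by linarith) (by linarith) hq0.le
      have h3 : (0 : ℝ) ≤ n := by linarith
      calc (h : ℝ) * n * (q - 1) = n * (h * (q - 1)) := by ring
        _ ≤ n * (q * q) := mul_le_mul_of_nonneg_left h2 h3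
        _ = n * q ^ 2 := by ring
    have t4 : (q : ℝ) ^ 2 * A * (1 + n * ((q : ℝ) - 1)) ≤ 4 * n * (n - 3) * P * q ^ 2 := by
      have h1 : 1 + n * ((q : ℝ) - 1) ≤ n * q := by nlinarith
      have h2 : (q : ℝ) ^ 2 * A ≤ q ^ 2 * (4 * (q : ℝ) ^ 2 * ((n : ℝ) - 3)) :=
        mul_le_mul_of_nonneg_left hAR (by positivity)
      have h3 : (0 : ℝ) ≤ (n : ℝ) - 3 := by linarith
      calc (q : ℝ) ^ 2 * A * (1 + n * ((q : ℝ) - 1))
          ≤ (q ^ 2 * (4 * (q : ℝ) ^ 2 * ((n : ℝ) - 3))) * (n * q) :=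
            mul_le_mul h2 h1 hden.le (by positivity)
        _ = (4 * n * (n - 3) * q ^ 2) * (q : ℝ) ^ 3 := by ring
        _ ≤ (4 * n * (n - 3) * q ^ 2) * P := by
            refine mul_le_mul_of_nonneg_left hP3 ?_
            have : (0 : ℝ) ≤ n := by linarith
            positivity
        _ = _ := by ring
    have t5 : P * ((h : ℝ) * n * (q - 1)) ≤ P * (n * q ^ 2) := mul_le_mul_of_nonneg_left t3 hP0.le
    have hPq : 0 ≤ P * (q : ℝ) ^ 2 := by positivity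
    have t6 : (P * (q : ℝ) ^ 2) * (1 + n + 4 * n * (n - 3)) ≤ (P * (q : ℝ) ^ 2) * (5 * n ^ 2) := by
      refine mul_le_mul_of_nonneg_left ?_ hPq
      nlinarith
    calc ((h : ℝ) * k * P + (q : ℝ) ^ 2 * A) * (1 + n * ((q : ℝ) - 1))
        = h * k * P + P * ((h : ℝ) * n * (q - 1) * k) + (q : ℝ) ^ 2 * A * (1 + n * ((q : ℝ) - 1)) := by
          ring
      _ ≤ P * q ^ 2 + (P * q ^ 3 + P * (n * q ^ 2)) + 4 * n * (n - 3) * P * q ^ 2 := by
          have : P * ((q : ℝ) ^ 3 + h * n * (q - 1)) = P * q ^ 3 + P * ((h : ℝ) * n * (q - 1)) := by ring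
          linarith
      _ = P * q ^ 3 + (P * (q : ℝ) ^ 2) * (1 + n + 4 * n * (n - 3)) := by ring
      _ ≤ P * q ^ 3 + (P * (q : ℝ) ^ 2) * (5 * n ^ 2) := by linarith
      _ = P * q ^ 3 + 5 * n ^ 2 * P * q ^ 2 := by ring

end Pool.Agent.H43.TR
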