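import Pool.Agent.H19.TR.Lines
import Pool.Agent.H24.TR.Glue
import Pool.Agent.H93.TR.BalFin

/-!
MP_b12e0e_ag (helper43): padding and the arithmetic for cubes of every order at least three.
-/

set_option autoImplicit false

open Set Function Module

open scoped Topology

namespace Pool.Agent.H43.TR

open Pool.Agent.H19.TR Pool.Agent.H93.TR

/-- The maximal rank is monotone in the format. -/
theorem pad {ι : Type} [Fintype ι] {α β : ι → Type} (e : ∀ i, α i ↪ β i) {R : ℕ}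
    (h : ∀ T : Ten β, T ∈ Sums β R) (T : Ten α) : T ∈ Sums α R := by
  classical
  let E : ((i : ι) → α i) → (i : ι) → β i := fun x i => e i (x i)
  have hE : Injective E := fun x y hxy => funext fun i => (e i).injective (congrFun hxy i)
  obtain ⟨v, hv⟩ := h (Function.extend E T 0)
  refine ⟨fun j i a => v j i (e i a), ?_⟩
  funext x
  have h1 := congrFun hv (E x)
  rw [hE.extend_apply] at h1
  rw [h1, Finset.sum_apply, Finset.sum_apply]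
  rfl

/-- The choice of `w`. -/
theorem exists_w (n : ℕ) (ε : ℝ) (hε : 0 < ε) : ∃ w : ℕ, 1 ≤ w ∧
    (2 : ℝ) ^ w / (2 ^ w - 1) + n / 2 ^ w < 1 + ε := by
  obtain ⟨w, hw⟩ := pow_unbounded_of_one_lt (1 + ((n : ℝ) + 1) / ε) (one_lt_two : (1 : ℝ) < 2)
  have h0 : (0 : ℝ) < ((n : ℝ) + 1) / ε := by positivity
  have hw1 : 1 ≤ w := by
    by_contra hlt
    have : w = 0 := by omega
    rw [this, pow_zero] at hw
    linarith
  refine ⟨w, hw1, ?_⟩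
  set x : ℝ := 2 ^ w with hx
  have h1 : (0 : ℝ) < x - 1 := by linarith
  have h2 : x / (x - 1) = 1 + 1 / (x - 1) := by
    field_simp
    ring
  have h3 : (n : ℝ) / x ≤ n / (x - 1) := by
    apply div_le_div_of_nonneg_left (Nat.cast_nonneg _) h1
    linarith
  have h4 : ((n : ℝ) + 1) / (x - 1) < ε := by
    rw [div_lt_iff₀ h1]
    have h5 : ((n : ℝ) + 1) / ε < x - 1 := by linarith
    rw [div_lt_iff₀ hε] at h5
    linarith
  have h6 : ((n : ℝ) + 1) / (x - 1) = 1 / (x - 1) + n / (x - 1) := by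
    rw [← add_div, add_comm]
  rw [h2]
  linarith

/-- The number of products, for `A = a s`, `M = m s ^ (n - 1)`, `b = 2 ^ (4 w)`. -/
theorem count (n A M w : ℕ) (hn : 3 ≤ n) (hA : 1 ≤ A) (hw : 1 ≤ w) (hM : n * M = A ^ (n - 1)) :
    (((M / (2 ^ (3 * w) * (2 ^ w - 1)) + 1) * (2 ^ (3 * w + w)) ^ n +
      A ^ (n - 1) * 2 ^ (3 * w + w + n * w) : ℕ) : ℝ) ≤
    (((A * 2 ^ (3 * w + w) : ℕ) : ℝ) ^ (n - 1) *
      ((2 : ℝ) ^ w / (2 ^ w - 1) + n / 2 ^ w) + n * ((2 : ℝ) ^ (3 * w + w)) ^ n) / n := by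
  obtain ⟨k, rfl⟩ : ∃ k, n = k + 3 := ⟨n - 3, by omega⟩
  have e1 : k + 3 - 1 = k + 2 := by omega
  rw [e1] at hM ⊢
  have hx1 : (1 : ℝ) < 2 ^ w := one_lt_pow₀ one_lt_two (by omega)
  have hx2 : 1 ≤ 2 ^ w := Nat.one_le_two_pow
  obtain ⟨x, hx⟩ : ∃ x : ℝ, x = 2 ^ w := ⟨_, rfl⟩
  rw [← hx] at hx1 ⊢
  have hg : ((2 ^ (3 * w) * (2 ^ w - 1) : ℕ) : ℝ) = x ^ 3 * (x - 1) := by
    rw [Nat.cast_mul, Nat.cast_sub hx2]
    push_cast
    rw [mul_comm 3 w, pow_mul, ← hx]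
  have hg0 : (0 : ℝ) < x ^ 3 * (x - 1) := by
    have : (0 : ℝ) < x - 1 := by linarith
    positivity
  have hq : ((M / (2 ^ (3 * w) * (2 ^ w - 1)) : ℕ) : ℝ) ≤ M / (x ^ 3 * (x - 1)) := by
    rw [← hg]
    exact Nat.cast_div_le
  have hMr : ((k : ℝ) + 3) * M = (A : ℝ) ^ (k + 2) := by exact_mod_cast hM
  have hb : (2 : ℝ) ^ (3 * w + w) = x ^ 4 := by
    rw [show 3 * w + w = w * 4 by ring, pow_mul, ← hx]
  have hb2 : (2 : ℝ) ^ (3 * w + w + (k + 3) * w) = x ^ (k + 7) := by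
    rw [show 3 * w + w + (k + 3) * w = w * (k + 7) by ring, pow_mul, ← hx]
  have hA0 : (0 : ℝ) ≤ A := Nat.cast_nonneg _
  have hx0 : (0 : ℝ) < x := by linarith
  push_cast
  rw [hb, hb2]
  have hk0 : (0 : ℝ) < (k : ℝ) + 3 := by positivity
  rw [le_div_iff₀ hk0]
  have h1 : ((M / (2 ^ (3 * w) * (2 ^ w - 1)) : ℕ) : ℝ) * (k + 3) ≤
      (A : ℝ) ^ (k + 2) / (x ^ 3 * (x - 1)) := by
    rw [← hMr]
    calc ((M / (2 ^ (3 * w) * (2 ^ w - 1)) : ℕ) : ℝ) * (k + 3)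
        ≤ M / (x ^ 3 * (x - 1)) * (k + 3) := by gcongr
      _ = _ := by ring
  have h2 : (A : ℝ) ^ (k + 2) / (x ^ 3 * (x - 1)) * (x ^ 4) ^ (k + 3) =
      ((A : ℝ) * x ^ 4) ^ (k + 2) * (x / (x - 1)) := by
    have hne : x - 1 ≠ 0 := by
      intro h
      linarith
    field_simp
    ring
  have h3 : (A : ℝ) ^ (k + 2) * x ^ (k + 7) ≤ ((A : ℝ) * x ^ 4) ^ (k + 2) * (1 / x) := by
    rw [mul_pow, mul_assoc]
    refine mul_le_mul_of_nonneg_left ?_ (by positivity)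
    rw [mul_one_div, le_div_iff₀ hx0, ← pow_mul, ← pow_succ]
    exact pow_le_pow_right₀ hx1.le (by omega)
  have h4 : (0 : ℝ) ≤ (x ^ 4) ^ (k + 3) := by positivity
  have h5 : ((M / (2 ^ (3 * w) * (2 ^ w - 1)) : ℕ) : ℝ) * (k + 3) * (x ^ 4) ^ (k + 3) ≤
      ((A : ℝ) * x ^ 4) ^ (k + 2) * (x / (x - 1)) := by
    rw [← h2]
    exact mul_le_mul_of_nonneg_right h1 h4
  have h6 : (A : ℝ) ^ (k + 2) * x ^ (k + 7) * (k + 3) ≤
      ((A : ℝ) * x ^ 4) ^ (k + 2) * ((k + 3) / x) := by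
    calc (A : ℝ) ^ (k + 2) * x ^ (k + 7) * (k + 3)
        ≤ ((A : ℝ) * x ^ 4) ^ (k + 2) * (1 / x) * (k + 3) := by gcongr
      _ = _ := by ring
  have h7 : ((((M / (2 ^ (3 * w) * (2 ^ w - 1)) : ℕ) : ℝ) + 1) * (x ^ 4) ^ (k + 3) +
      (A : ℝ) ^ (k + 2) * x ^ (k + 7)) * (k + 3) =
      ((M / (2 ^ (3 * w) * (2 ^ w - 1)) : ℕ) : ℝ) * (k + 3) * (x ^ 4) ^ (k + 3) +
      (A : ℝ) ^ (k + 2) * x ^ (k + 7) * (k + 3) + (k + 3) * (x ^ 4) ^ (k + 3) := by ring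
  rw [h7]
  have h8 : ((A : ℝ) * x ^ 4) ^ (k + 2) * (x / (x - 1) + (k + 3) / x) =
      ((A : ℝ) * x ^ 4) ^ (k + 2) * (x / (x - 1)) +
      ((A : ℝ) * x ^ 4) ^ (k + 2) * ((k + 3) / x) := by ring
  rw [h8]
  linarith

/-- The limit. -/
theorem lim_q (n D : ℕ) (c E ε : ℝ) (hn : 3 ≤ n) (hc : c < 1 + ε) :
    ∃ Q : ℕ, 1 ≤ Q ∧ ∀ q : ℕ, Q ≤ q →
      ((q : ℝ) + D) ^ (n - 1) * c + E ≤ (1 + ε) * (q : ℝ) ^ (n - 1) := by
  have h1 : Filter.Tendsto (fun q : ℕ => (1 + (D : ℝ) / q) ^ (n - 1) * c + E / (q : ℝ) ^ (n - 1))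
      Filter.atTop (𝓝 ((1 + 0) ^ (n - 1) * c + 0)) := by
    refine Filter.Tendsto.add (Filter.Tendsto.mul_const _ (Filter.Tendsto.pow
      (Filter.Tendsto.const_add _ ?_) _)) ?_
    · exact tendsto_const_div_atTop_nhds_zero_nat _
    · refine Filter.Tendsto.div_atTop tendsto_const_nhds ?_
      exact (Filter.tendsto_pow_atTop (by omega)).comp tendsto_natCast_atTop_atTop
  rw [add_zero, add_zero, one_pow, one_mul] at h1
  obtain ⟨Q, hQ⟩ := Filter.eventually_atTop.1 (h1.eventually (gt_mem_nhds hc))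
  refine ⟨max Q 1, le_max_right _ _, fun q hq => ?_⟩
  have h2 := hQ q (le_trans (le_max_left _ _) hq)
  have hq1 : 1 ≤ q := le_trans (le_max_right _ _) hq
  have hq0 : (0 : ℝ) < q := by exact_mod_cast hq1
  have h3 : (0 : ℝ) < (q : ℝ) ^ (n - 1) := by positivity
  have h4 : ((q : ℝ) + D) ^ (n - 1) * c + E =
      ((1 + (D : ℝ) / q) ^ (n - 1) * c + E / (q : ℝ) ^ (n - 1)) * (q : ℝ) ^ (n - 1) := by
    have h5 : ((q : ℝ) + D) ^ (n - 1) = (1 + (D : ℝ) / q) ^ (n - 1) * (q : ℝ) ^ (n - 1) := by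
      rw [← mul_pow]
      congr 1
      field_simp
    rw [h5]
    field_simp
  rw [h4]
  exact mul_le_mul_of_nonneg_right h2.le h3.le

/-- Cubes of a fixed order. -/
theorem every_order
    (hB : ∀ n : ℕ, 3 ≤ n → ∃ a m : ℕ, 0 < a ∧ n * m = a ^ (n - 1) ∧
      ∀ s, 1 ≤ s → Lines (fun _ : Fin n => Fin (a * s)) (fun _ : Fin n => Fin (m * s ^ (n - 1))))
    (hC : ∀ n a m v w r : ℕ, 1 ≤ n → 0 < a →
      Lines (fun _ : Fin n => Fin a) (fun _ : Fin n => Fin m) → m ≤ r * (2 ^ v * (2 ^ w - 1)) →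
      ∀ T : Ten (fun _ : Fin n => Fin (a * 2 ^ (v + w))),
        T ∈ Sums (fun _ : Fin n => Fin (a * 2 ^ (v + w)))
          (r * (2 ^ (v + w)) ^ n + a ^ (n - 1) * 2 ^ (v + w + n * w)))
    (n : ℕ) (hn : 3 ≤ n) (ε : ℝ) (hε : 0 < ε) :
    ∃ Q : ℕ, ∀ q : ℕ, Q ≤ q → Bdd n (fun _ => q) ((1 + ε) * lwd n (fun _ => q)) := by
  obtain ⟨a, m, ha, ham, hL⟩ := hB n hn
  obtain ⟨w, hw1, hw⟩ := exists_w n ε hε
  obtain ⟨Q, hQ1, hQ⟩ := lim_q n (a * 2 ^ (3 * w + w)) _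
    (n * ((2 : ℝ) ^ (3 * w + w)) ^ n) ε hn hw
  refine ⟨Q, fun q hq => ?_⟩
  have hq1 : 1 ≤ q := hQ1.trans hq
  set D := a * 2 ^ (3 * w + w) with hD
  have hD0 : 0 < D := Nat.mul_pos ha (by positivity)
  set s := q / D + 1 with hs
  have hs1 : 1 ≤ s := Nat.le_add_left 1 _
  set A := a * s with hA
  set M := m * s ^ (n - 1) with hM
  have hA1 : 0 < A := Nat.mul_pos ha hs1
  have hAM : n * M = A ^ (n - 1) := by
    rw [hM, hA, mul_pow, ← ham, mul_assoc]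
  have hAD : A * 2 ^ (3 * w + w) = D * s := by rw [hA, hD]; ring
  have hqA : q ≤ A * 2 ^ (3 * w + w) := by
    rw [hAD, hs]
    have := Nat.lt_mul_div_succ q hD0
    exact this.le
  have hAq : A * 2 ^ (3 * w + w) ≤ q + D := by
    rw [hAD, hs, mul_add, mul_one]
    have := Nat.mul_div_le q D
    omega
  set g := 2 ^ (3 * w) * (2 ^ w - 1) with hg
  have hg0 : 0 < g := by
    have : 1 < 2 ^ w := Nat.one_lt_two_pow (by omega)
    exact Nat.mul_pos (by positivity) (by omega)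
  have hr : M ≤ (M / g + 1) * g := by
    rw [mul_comm]
    exact (Nat.lt_mul_div_succ M hg0).le
  have hT := hC n A M (3 * w) w (M / g + 1) (by omega) hA1 (hL s hs1) hr
  refine ⟨_, ?_, pad (fun _ => Fin.castLEEmb hqA) hT⟩
  refine (count n A M w hn hA1 hw1 hAM).trans ?_
  have hn0 : (0 : ℝ) < n := by exact_mod_cast (by omega : 0 < n)
  have hq0 : (1 : ℝ) ≤ q := by exact_mod_cast hq1
  have hc0 : (0 : ℝ) ≤ (2 : ℝ) ^ w / (2 ^ w - 1) + n / 2 ^ w := by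
    have : (1 : ℝ) ≤ 2 ^ w := one_le_pow₀ one_le_two
    have : (0 : ℝ) ≤ 2 ^ w - 1 := by linarith
    positivity
  have h1 : (((A * 2 ^ (3 * w + w) : ℕ) : ℝ) ^ (n - 1) *
      ((2 : ℝ) ^ w / (2 ^ w - 1) + n / 2 ^ w) + n * ((2 : ℝ) ^ (3 * w + w)) ^ n) ≤
      (1 + ε) * (q : ℝ) ^ (n - 1) := by
    refine le_trans ?_ (hQ q hq)
    have h2 : ((A * 2 ^ (3 * w + w) : ℕ) : ℝ) ≤ (q : ℝ) + D := by exact_mod_cast hAq
    gcongr
  have h3 : (1 + ε) * ((q : ℝ) ^ (n - 1) / n) ≤ (1 + ε) * lwd n (fun _ => q) := by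
    refine mul_le_mul_of_nonneg_left ?_ (by linarith)
    unfold lwd
    rw [Finset.prod_const, Finset.sum_const, Finset.card_univ, Fintype.card_fin, nsmul_eq_mul]
    have h4 : (0 : ℝ) ≤ n * ((q : ℝ) - 1) := mul_nonneg hn0.le (by linarith)
    have hn1 : (1 : ℝ) ≤ n := by exact_mod_cast (by omega : 1 ≤ n)
    rw [div_le_div_iff₀ hn0 (by linarith)]
    have h5 : (q : ℝ) ^ n = (q : ℝ) ^ (n - 1) * q := by
      rw [← pow_succ, Nat.sub_add_cancel (by omega)]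
    rw [h5]
    have h6 : (0 : ℝ) ≤ (q : ℝ) ^ (n - 1) := by positivity
    nlinarith
  refine le_trans ?_ h3
  rw [← mul_div_assoc]
  exact div_le_div_of_nonneg_right h1 hn0.le

/-- Cubes, uniformly in the order. -/
theorem every_order_unif
    (hB : ∀ n : ℕ, 3 ≤ n → ∃ a m : ℕ, 0 < a ∧ n * m = a ^ (n - 1) ∧
      ∀ s, 1 ≤ s → Lines (fun _ : Fin n => Fin (a * s)) (fun _ : Fin n => Fin (m * s ^ (n - 1))))
    (hC : ∀ n a m v w r : ℕ, 1 ≤ n → 0 < a →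
      Lines (fun _ : Fin n => Fin a) (fun _ : Fin n => Fin m) → m ≤ r * (2 ^ v * (2 ^ w - 1)) →
      ∀ T : Ten (fun _ : Fin n => Fin (a * 2 ^ (v + w))),
        T ∈ Sums (fun _ : Fin n => Fin (a * 2 ^ (v + w)))
          (r * (2 ^ (v + w)) ^ n + a ^ (n - 1) * 2 ^ (v + w + n * w)))
    (ε : ℝ) (hε : 0 < ε) :
    ∃ N₀ : ℕ, ∀ n q : ℕ, 3 ≤ n → 2 ≤ q → N₀ ≤ q ^ n →
      Bdd n (fun _ => q) ((1 + ε) * lwd n (fun _ => q)) := by
  obtain ⟨k, hk4, hk⟩ := Pool.Agent.H24.TR.glue_k ε hε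
  obtain ⟨n₀, hn₀1, hn₀⟩ := Pool.Agent.H24.TR.glue_key k 1
  have hF : ∀ n : ℕ, ∃ Q : ℕ, 3 ≤ n → ∀ q : ℕ, Q ≤ q →
      Bdd n (fun _ => q) ((1 + ε) * lwd n (fun _ => q)) := by
    intro n
    by_cases hn : 3 ≤ n
    · obtain ⟨Q, hQ⟩ := every_order hB hC n hn ε hε
      exact ⟨Q, fun _ => hQ⟩
    · exact ⟨0, fun h => absurd h hn⟩
  choose Q hQ using hF
  refine ⟨(∑ j ∈ Finset.range n₀, Q j + 1) ^ n₀, fun n q hn hq hN => ?_⟩
  rcases le_or_gt n₀ n with hc | hc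
  · have h3 := hn₀ n hc q hq
    rw [mul_one] at h3
    obtain ⟨R, hR, hT⟩ := bdd_many n k (fun _ => q) (by omega) hk4 (fun _ => hq) (by
      rw [Finset.sum_const, Finset.prod_const, Finset.card_univ, Fintype.card_fin, smul_eq_mul]
      refine le_trans (Nat.pow_le_pow_left ?_ _) h3
      obtain ⟨q', rfl⟩ : ∃ q', q = q' + 1 := ⟨q - 1, by omega⟩
      rw [Nat.add_sub_cancel, Nat.mul_add, Nat.mul_one]
      omega)
    refine ⟨R, hR.trans ?_, hT⟩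
    exact mul_le_mul_of_nonneg_right (by linarith) (lwd_nonneg n _ fun _ => by omega)
  · refine hQ n hn q ?_
    by_contra hlt
    push Not at hlt
    have h1 : Q n ≤ ∑ j ∈ Finset.range n₀, Q j :=
      Finset.single_le_sum (fun _ _ => Nat.zero_le _) (Finset.mem_range.2 hc)
    have h3 : q ^ n ≤ q ^ n₀ := Nat.pow_le_pow_right (by omega) hc.le
    have h4 : q ^ n₀ < (∑ j ∈ Finset.range n₀, Q j + 1) ^ n₀ :=
      Nat.pow_lt_pow_left (by omega) (by omega)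
    omega

end Pool.Agent.H43.TR
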