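import Pool.Agent.H19.TR.LinUpper

/-!
MP_b12e0e_ag (helper43): enlarging one factor costs the product of all other dimensions but one
for each new slice.
-/

set_option autoImplicit false

open Set Function Module

namespace Pool.Agent.H43.TR

open Pool.Agent.H19.TR Pool.Agent.H93.TR

/-- Extension by zero. -/
theorem extend_mem_Sums {ι : Type} [Fintype ι] {α β : ι → Type} (e : ∀ i, α i ↪ β i) {R : ℕ}
    {T : Ten α} (h : T ∈ Sums α R) :
    (Function.extend (fun (z : (i : ι) → α i) i => e i (z i)) T 0 : Ten β) ∈ Sums β R := by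
  classical
  have hE : Injective fun (z : (i : ι) → α i) (i : ι) => e i (z i) :=
    fun x y hxy => funext fun i => (e i).injective (congrFun hxy i)
  obtain ⟨v, rfl⟩ := h
  refine ⟨fun j i => Function.extend (e i) (v j i) 0, ?_⟩
  funext y
  rw [Finset.sum_apply]
  by_cases hy : ∃ z : (i : ι) → α i, (fun i => e i (z i)) = y
  · obtain ⟨z, rfl⟩ := hy
    rw [hE.extend_apply, Finset.sum_apply]
    refine Finset.sum_congr rfl fun j _ => ?_
    exact Finset.prod_congr rfl fun i _ => ((e i).injective.extend_apply _ _ _).symm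
  · rw [extend_apply' _ _ _ hy]
    have h1 : ∃ i, ¬ ∃ a, e i a = y i := by
      by_contra hcon
      push Not at hcon
      choose z hz using hcon
      exact hy ⟨z, funext hz⟩
    obtain ⟨i, hi⟩ := h1
    symm
    refine Finset.sum_eq_zero fun j _ => Finset.prod_eq_zero (Finset.mem_univ i) ?_
    exact extend_apply' _ _ _ hi

/-- A factor of dimension `x + o`. -/
theorem Sums_extend {ι : Type} [Fintype ι] [DecidableEq ι] (d : ι → ℕ) (i₀ i₁ : ι) (hne : i₀ ≠ i₁)
    (x o : ℕ) (hd : d i₀ = x + o) {R : ℕ}
    (h : ∀ T : Ten (fun i => Fin (update d i₀ x i)), T ∈ Sums (fun i => Fin (update d i₀ x i)) R)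
    (T : Ten (fun i => Fin (d i))) :
    T ∈ Sums (fun i => Fin (d i)) (R + o * ∏ i ∈ (Finset.univ.erase i₀).erase i₁, d i) := by
  classical
  have hx : ∀ i, update d i₀ x i ≤ d i := by
    intro i
    by_cases hi : i = i₀
    · subst hi
      rw [update_self]
      omega
    · rw [update_of_ne hi]
  let e1 : ∀ i, Fin (update d i₀ x i) ↪ Fin (d i) := fun i => Fin.castLEEmb (hx i)
  let s : ι → ℕ := fun i => if i = i₀ then x else 0
  have ho : ∀ i, s i + update d i₀ o i = d i := by
    intro i
    by_cases hi : i = i₀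
    · subst hi
      simp only [s, if_true, update_self]
      omega
    · simp only [s, if_neg hi, update_of_ne hi]
      omega
  let e2 : ∀ i, Fin (update d i₀ o i) ↪ Fin (d i) := fun i =>
    ⟨fun c => ⟨s i + c, by have := c.isLt; have := ho i; omega⟩, fun c c' hcc => by
      have := congrArg Fin.val hcc
      simp only at this
      exact Fin.ext (by omega)⟩
  let E1 : ((i : ι) → Fin (update d i₀ x i)) → (i : ι) → Fin (d i) := fun z i => e1 i (z i)
  let E2 : ((i : ι) → Fin (update d i₀ o i)) → (i : ι) → Fin (d i) := fun z i => e2 i (z i)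
  have hE1 : Injective E1 := fun x y hxy => funext fun i => (e1 i).injective (congrFun hxy i)
  have hE2 : Injective E2 := fun x y hxy => funext fun i => (e2 i).injective (congrFun hxy i)
  have h1 : ∀ y : (i : ι) → Fin (d i), (∃ z, E1 z = y) ↔ (y i₀ : ℕ) < x := by
    intro y
    constructor
    · rintro ⟨z, rfl⟩
      exact lt_of_lt_of_eq (z i₀).isLt (update_self i₀ x d)
    · intro hy
      refine ⟨fun i => ⟨y i, ?_⟩, ?_⟩
      · by_cases hi : i = i₀
        · subst hi
          rw [update_self]
          exact hy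
        · rw [update_of_ne hi]
          exact (y i).isLt
      · funext i
        exact Fin.ext rfl
  have h2 : ∀ y : (i : ι) → Fin (d i), (∃ z, E2 z = y) ↔ x ≤ (y i₀ : ℕ) := by
    intro y
    constructor
    · rintro ⟨z, rfl⟩
      show x ≤ s i₀ + (z i₀ : ℕ)
      simp only [s, if_true]
      omega
    · intro hy
      have hs : ∀ i, s i ≤ (y i : ℕ) := by
        intro i
        by_cases hi : i = i₀
        · subst hi
          simp only [s, if_true]
          exact hy
        · simp only [s, if_neg hi]
          omega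
      refine ⟨fun i => ⟨(y i : ℕ) - s i, ?_⟩, ?_⟩
      · have := ho i
        have := (y i).isLt
        have := hs i
        omega
      · funext i
        refine Fin.ext ?_
        show s i + ((y i : ℕ) - s i) = y i
        have := hs i
        omega
  have hT : T = Function.extend E1 (fun z => T (E1 z)) 0 +
      Function.extend E2 (fun z => T (E2 z)) 0 := by
    funext y
    rw [Pi.add_apply]
    rcases lt_or_ge (y i₀ : ℕ) x with hy | hy
    · obtain ⟨z, hz⟩ := (h1 y).2 hy
      rw [extend_apply' (f := E2) _ _ _ (fun hcon => absurd ((h2 y).1 hcon) (not_le.2 hy)), ← hz,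
        hE1.extend_apply]
      simp
    · obtain ⟨z, hz⟩ := (h2 y).2 hy
      rw [extend_apply' (f := E1) _ _ _ (fun hcon => absurd ((h1 y).1 hcon) (not_lt.2 hy)), ← hz,
        hE2.extend_apply]
      simp
  have hc : Fintype.card ((i : {i : ι // i ≠ i₁}) → Fin (update d i₀ o i)) =
      o * ∏ i ∈ (Finset.univ.erase i₀).erase i₁, d i := by
    rw [Fintype.card_pi]
    simp only [Fintype.card_fin]
    have h3 : ∏ i : {i : ι // i ≠ i₁}, update d i₀ o i = ∏ i ∈ Finset.univ.erase i₁, update d i₀ o i := by
      rw [← Finset.prod_subtype (p := fun i => i ≠ i₁) (Finset.univ.erase i₁) (by simp)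
        (fun i => update d i₀ o i)]
    rw [h3, ← Finset.mul_prod_erase _ _ (Finset.mem_erase.2 ⟨hne, Finset.mem_univ i₀⟩), update_self,
      Finset.erase_right_comm]
    congr 1
    refine Finset.prod_congr rfl fun i hi => ?_
    rw [update_of_ne]
    exact (Finset.mem_erase.1 (Finset.mem_of_mem_erase hi)).1
  rw [hT]
  refine add_mem_Sums (extend_mem_Sums e1 (h _)) ?_
  rw [← hc]
  exact extend_mem_Sums e2 (mem_Sums_triv i₁ _)

end Pool.Agent.H43.TR
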